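import Pool.Agent.Lib.Poly.BinNat

/-!
Binary arithmetic in `PT`: natural numbers in binary (`Bin`).
-/

namespace Pool.Agent.Lib.Poly

open Computability

/-- Natural numbers in binary. -/
structure Bin where
  val : ℕ

instance : Enc Bin := ⟨fun n => encodeNat n.val, fun ⟨a⟩ ⟨b⟩ h => by
  have := congrArg decodeNat h
  simp only [decode_encodeNat] at this
  rw [this]⟩

theorem enc_bin (n : Bin) : enc n = encodeNat n.val := rfl

/-- The value of a bit string, least significant bit first. -/
def bv : List Bool → ℕ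
  | [] => 0
  | b :: l => b.toNat + 2 * bv l

theorem bv_encodeNat (n : ℕ) : bv (encodeNat n) = n := by
  induction n using Nat.strong_induction_on with
  | _ n ih =>
    by_cases h : n = 0
    · subst h; rfl
    · rw [encodeNat_pos n h, bv, ih (n / 2) (by omega)]
      by_cases h2 : n % 2 = 1
      · simp [h2]; omega
      · simp [h2]; omega

theorem bv_enc (n : Bin) : bv (enc n) = n.val := bv_encodeNat _

theorem bv_pad (l : List Bool) (n : ℕ) : bv (l ++ List.replicate n false) = bv l := by
  induction l with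
  | nil =>
    induction n with
    | zero => rfl
    | succ n ih => simp only [List.nil_append] at ih ⊢; simp [List.replicate_succ, bv, ih]
  | cons b l ih => simp [bv, ih]

theorem bv_lt (l : List Bool) : bv l < 2 ^ l.length := by
  induction l with
  | nil => simp [bv]
  | cons b l ih =>
    have : b.toNat ≤ 1 := by cases b <;> simp
    simp only [bv, List.length_cons, pow_succ]; omega

theorem Bin.lt_two_pow (n : Bin) : n.val < 2 ^ sz n := by
  have := bv_lt (enc n)
  rwa [bv_enc] at this

theorem Bin.sz_le {n k : ℕ} (h : n < 2 ^ k) : sz (Bin.mk n) ≤ k := by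
  show (encodeNat n).length ≤ k
  induction k generalizing n with
  | zero =>
    have : n = 0 := by simpa using h
    subst this; rfl
  | succ k ih =>
    by_cases h0 : n = 0
    · subst h0; simp [encodeNat_zero]
    · rw [encodeNat_pos n h0, List.length_cons]
      have := ih (n := n / 2) (by rw [pow_succ] at h; omega)
      omega

theorem Bin.sz_mono {m n : ℕ} (h : m ≤ n) : sz (Bin.mk m) ≤ sz (Bin.mk n) :=
  Bin.sz_le (lt_of_le_of_lt h (Bin.lt_two_pow ⟨n⟩))

def stripStep (acc : List Bool) (b : Bool) : List Bool :=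
  if acc.isEmpty && !b then [] else b :: acc

theorem strip_eq (l : List Bool) : l.reverse.foldl stripStep [] = encodeNat (bv l) := by
  rw [List.foldl_reverse]
  induction l with
  | nil => rfl
  | cons b l ih =>
    rw [List.foldr_cons, ih, stripStep, bv]
    by_cases h0 : b.toNat + 2 * bv l = 0
    · have h1 : bv l = 0 := by omega
      have h2 : b = false := by cases b <;> simp_all
      rw [h0, h1, h2]; rfl
    · rw [encodeNat_pos _ h0]
      have e1 : (b.toNat + 2 * bv l) / 2 = bv l := by cases b <;> simp; omega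
      have e2 : decide ((b.toNat + 2 * bv l) % 2 = 1) = b := by
        cases b
        · simp
        · simp only [Bool.toNat_true, decide_eq_true_eq]; omega
      rw [e1, e2, if_neg]
      cases b
      · have h1 : bv l ≠ 0 := by simpa using h0
        rw [encodeNat_pos _ h1]; simp
      · simp

variable {α β : Type} [Enc α] [Enc β]

/-- The number with a given bit string. -/
def Bin.ofBits (l : List Bool) : Bin := ⟨bv l⟩

@[fun_prop] theorem PT.ofBits {f : α → List Bool} (hf : PT f) :
    PT fun x => Bin.ofBits (f x) := by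
  have h1 : PT fun l : List Bool => l.reverse.foldl stripStep [] := by
    refine PT.foldl (f := fun _ acc b => stripStep acc b) (by unfold stripStep; fun_prop)
      (by fun_prop) (by fun_prop) (fun _ => 3) (by fun_prop) fun a c x => ?_
    unfold stripStep
    split_ifs <;> simp; omega
  have h2 : PT fun l : List Bool => Bin.ofBits l :=
    (PT.toRaw h1).of_enc (fun l => l) (fun _ => rfl) fun l => by
      rw [enc_raw, strip_eq]; rfl
  exact h2.comp hf

/-- A sequential transducer with one bit of memory. -/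
def trans (δ : Bool → Bool × Bool → Bool × Bool) : Bool → List (Bool × Bool) → List Bool × Bool
  | c, [] => ([], c)
  | c, p :: l => ((δ c p).1 :: (trans δ (δ c p).2 l).1, (trans δ (δ c p).2 l).2)

theorem trans_foldl (δ : Bool → Bool × Bool → Bool × Bool) (l : List (Bool × Bool))
    (out : List Bool) (c : Bool) :
    l.foldl (fun (s : List Bool × Bool) p => (s.1 ++ [(δ s.2 p).1], (δ s.2 p).2)) (out, c) =
      (out ++ (trans δ c l).1, (trans δ c l).2) := by
  induction l generalizing out c with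
  | nil => simp [trans]
  | cons p l ih => rw [List.foldl_cons, ih]; simp [trans]

theorem PT.transd (δ : Bool → Bool × Bool → Bool × Bool) {l : α → List (Bool × Bool)}
    (hl : PT l) : PT fun x => trans δ false (l x) := by
  have hδ : PT fun p : Bool × Bool × Bool => δ p.1 p.2 := PT.of_finite _
  have h1 : PT fun p : α × (List Bool × Bool) × Bool × Bool => δ p.2.1.2 p.2.2 :=
    hδ.comp (g := fun p : α × (List Bool × Bool) × Bool × Bool => (p.2.1.2, p.2.2)) (by fun_prop)
  refine (PT.foldl (f := fun _ (s : List Bool × Bool) p => (s.1 ++ [(δ s.2 p).1], (δ s.2 p).2))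
    (init := fun _ => ([], false)) (by fun_prop) (by fun_prop) hl (fun _ => 6) (by fun_prop)
    fun a c x => ?_).of_eq fun a => ?_
  · obtain ⟨o, c⟩ := c
    simp; omega
  · rw [trans_foldl]; simp

def padZip (a b : List Bool) : List (Bool × Bool) :=
  (a ++ List.replicate b.length false).zip (b ++ List.replicate a.length false)

theorem bv_padZip_fst (a b : List Bool) : bv ((padZip a b).map Prod.fst) = bv a := by
  rw [padZip, List.map_fst_zip (by simp; omega), bv_pad]

theorem bv_padZip_snd (a b : List Bool) : bv ((padZip a b).map Prod.snd) = bv b := by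
  rw [padZip, List.map_snd_zip (by simp; omega), bv_pad]

def addδ (c : Bool) (p : Bool × Bool) : Bool × Bool :=
  ((c ^^ p.1) ^^ p.2, (c && p.1) || (c && p.2) || (p.1 && p.2))

theorem add_trans (l : List (Bool × Bool)) (c : Bool) :
    bv ((trans addδ c l).1 ++ [(trans addδ c l).2]) =
      c.toNat + bv (l.map Prod.fst) + bv (l.map Prod.snd) := by
  induction l generalizing c with
  | nil => simp [trans, bv]
  | cons p l ih =>
    obtain ⟨a, b⟩ := p
    simp only [trans, List.cons_append, bv, ih, List.map_cons]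
    cases a <;> cases b <;> cases c <;> simp [addδ] <;> omega

def subδ (c : Bool) (p : Bool × Bool) : Bool × Bool :=
  ((c ^^ p.1) ^^ p.2, (c && !p.1) || (c && p.2) || (!p.1 && p.2))

theorem sub_trans (l : List (Bool × Bool)) (c : Bool) :
    ((trans subδ c l).2 = false →
      bv (trans subδ c l).1 + bv (l.map Prod.snd) + c.toNat = bv (l.map Prod.fst)) ∧
    ((trans subδ c l).2 = true → bv (l.map Prod.fst) < bv (l.map Prod.snd) + c.toNat) := by
  induction l generalizing c with
  | nil => cases c <;> simp [trans, bv]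
  | cons p l ih =>
    obtain ⟨a, b⟩ := p
    have := ih (subδ c (a, b)).2
    simp only [trans, bv, List.map_cons]
    refine ⟨fun h => ?_, fun h => ?_⟩
    · have h1 := this.1 h
      revert h1
      cases a <;> cases b <;> cases c <;> simp [subδ] <;> omega
    · have h1 := this.2 h
      revert h1
      cases a <;> cases b <;> cases c <;> simp [subδ] <;> omega

def Bin.add (a b : Bin) : Bin := ⟨a.val + b.val⟩
def Bin.sub (a b : Bin) : Bin := ⟨a.val - b.val⟩
def Bin.mul (a b : Bin) : Bin := ⟨a.val * b.val⟩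
def Bin.div (a b : Bin) : Bin := ⟨a.val / b.val⟩
def Bin.mod (a b : Bin) : Bin := ⟨a.val % b.val⟩
def Bin.gcd (a b : Bin) : Bin := ⟨a.val.gcd b.val⟩
def Bin.lt (a b : Bin) : Bool := decide (a.val < b.val)

@[fun_prop] theorem PT.pzip {f g : α → List Bool} (hf : PT f) (hg : PT g) :
    PT fun x => padZip (f x) (g x) := by
  unfold padZip; fun_prop

@[fun_prop] theorem PT.badd {f g : α → Bin} (hf : PT f) (hg : PT g) :
    PT fun x => (f x).add (g x) := by
  have h := PT.transd addδ (PT.pzip hf.toEnc hg.toEnc)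
  refine (PT.ofBits (PT.append h.fst (PT.cons h.snd (PT.const [])))).of_eq fun x => ?_
  rw [Bin.ofBits, add_trans, bv_padZip_fst, bv_padZip_snd, bv_enc, bv_enc]
  simp [Bin.add]

@[fun_prop] theorem PT.blt {f g : α → Bin} (hf : PT f) (hg : PT g) :
    PT fun x => (f x).lt (g x) := by
  have h := PT.transd subδ (PT.pzip hf.toEnc hg.toEnc)
  refine h.snd.of_eq fun x => ?_
  have := sub_trans (padZip (enc (f x)) (enc (g x))) false
  rw [bv_padZip_fst, bv_padZip_snd, bv_enc, bv_enc] at this
  unfold Bin.lt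
  cases e : (trans subδ false (padZip (enc (f x)) (enc (g x)))).2
  · have := this.1 e
    simp at this ⊢; omega
  · have := this.2 e
    simpa using this

@[fun_prop] theorem PT.bsub {f g : α → Bin} (hf : PT f) (hg : PT g) :
    PT fun x => (f x).sub (g x) := by
  have h := PT.transd subδ (PT.pzip hf.toEnc hg.toEnc)
  refine (PT.cond h.snd (PT.const (Bin.mk 0)) (PT.ofBits h.fst)).of_eq fun x => ?_
  have := sub_trans (padZip (enc (f x)) (enc (g x))) false
  rw [bv_padZip_fst, bv_padZip_snd, bv_enc, bv_enc] at this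
  unfold Bin.sub Bin.ofBits
  cases e : (trans subδ false (padZip (enc (f x)) (enc (g x)))).2
  · have := this.1 e
    simp at this ⊢; omega
  · have := this.2 e
    simp at this ⊢; omega

theorem Bin.sz_add_le (a b : Bin) : sz (a.add b) ≤ sz a + sz b + 1 := by
  refine Bin.sz_le ?_
  have h1 := a.lt_two_pow
  have h2 := b.lt_two_pow
  have h3 : 2 ^ sz a ≤ 2 ^ (sz a + sz b) := Nat.pow_le_pow_right (by omega) (by omega)
  have h4 : 2 ^ sz b ≤ 2 ^ (sz a + sz b) := Nat.pow_le_pow_right (by omega) (by omega)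
  rw [pow_succ]; omega

theorem Bin.sz_dbl_le (a : Bin) (b : Bool) : sz (Bin.mk (b.toNat + 2 * a.val)) ≤ sz a + 1 := by
  refine Bin.sz_le ?_
  have h1 := a.lt_two_pow
  have : b.toNat ≤ 1 := by cases b <;> simp
  rw [pow_succ]; omega

/-- Doubling and adding a bit. -/
def Bin.dbl (a : Bin) (b : Bool) : Bin := ⟨b.toNat + 2 * a.val⟩

@[fun_prop] theorem PT.dbl {f : α → Bin} {g : α → Bool} (hf : PT f) (hg : PT g) :
    PT fun x => (f x).dbl (g x) :=
  (PT.ofBits (PT.cons hg hf.toEnc)).of_eq fun x => by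
    rw [Bin.ofBits, bv, bv_enc]; rfl

@[fun_prop] theorem PT.bmul {f g : α → Bin} (hf : PT f) (hg : PT g) :
    PT fun x => (f x).mul (g x) := by
  obtain ⟨s, hs, hs'⟩ := hf.size
  refine (PT.foldl (f := fun x (acc : Bin) (b : Bool) =>
      (acc.dbl false).add (bif b then f x else ⟨0⟩)) (init := fun _ => ⟨0⟩)
    (l := fun x => (enc (g x)).reverse) (by fun_prop) (by fun_prop) (by fun_prop)
    (fun n => s n + 2) (by fun_prop) fun a c x => ?_).of_eq fun x => ?_
  · have h1 := Bin.sz_add_le (c.dbl false) (bif x then f a else ⟨0⟩)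
    have h2 : sz (c.dbl false) ≤ sz c + 1 := Bin.sz_dbl_le c false
    have h3 : sz (bif x then f a else (⟨0⟩ : Bin)) ≤ s (sz a + sz x) := by
      cases x
      · exact Nat.zero_le _
      · exact (hs' a).trans (hs.mono (Nat.le_add_right _ _))
    omega
  · rw [List.foldl_reverse, Bin.mul, ← bv_enc (g x)]
    induction enc (g x) with
    | nil => rfl
    | cons b l ih =>
      rw [List.foldr_cons, ih, bv]
      cases b <;> simp [Bin.add, Bin.dbl] <;> ring

def dmStep (b : Bin) (s : Bin × Bin) (x : Bool) : Bin × Bin :=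
  bif (s.2.dbl x).lt b then (s.1.dbl false, s.2.dbl x) else (s.1.dbl true, (s.2.dbl x).sub b)

theorem dm_fold (b : Bin) (hb : b.val ≠ 0) (l : List Bool) :
    l.reverse.foldl (dmStep b) (⟨0⟩, ⟨0⟩) = (⟨bv l / b.val⟩, ⟨bv l % b.val⟩) := by
  rw [List.foldl_reverse]
  induction l with
  | nil => simp [bv]
  | cons x l ih =>
    rw [List.foldr_cons, ih]
    have h1 := Nat.div_add_mod (bv l) b.val
    have h2 := Nat.mod_lt (bv l) (Nat.pos_of_ne_zero hb)
    have hx : x.toNat ≤ 1 := by cases x <;> simp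
    have key : ∀ q r : ℕ, r < b.val → b.val * q + r = bv (x :: l) →
        bv (x :: l) / b.val = q ∧ bv (x :: l) % b.val = r := fun q r h3 h4 =>
      (Nat.div_mod_unique (Nat.pos_of_ne_zero hb)).2 ⟨by omega, h3⟩
    simp only [dmStep, Bin.lt, Bin.dbl, Bin.sub]
    by_cases h : x.toNat + 2 * (bv l % b.val) < b.val
    · obtain ⟨e1, e2⟩ := key (2 * (bv l / b.val)) (x.toNat + 2 * (bv l % b.val)) h (by
        rw [bv, Nat.mul_left_comm]; omega)
      simp [h, e1, e2]
    · obtain ⟨e1, e2⟩ := key (1 + 2 * (bv l / b.val)) (x.toNat + 2 * (bv l % b.val) - b.val)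
        (by omega) (by rw [bv, Nat.mul_add, Nat.mul_left_comm]; omega)
      simp [h, e1, e2]

theorem PT.dm {f g : α → Bin} (hf : PT f) (hg : PT g) :
    PT fun x => (enc (f x)).reverse.foldl (dmStep (g x)) (⟨0⟩, ⟨0⟩) := by
  refine PT.foldl (f := fun x => dmStep (g x)) (by unfold dmStep; fun_prop) (by fun_prop)
    (by fun_prop) (fun _ => 3) (by fun_prop) fun a c x => ?_
  obtain ⟨q, r⟩ := c
  have h1 : sz (q.dbl false) ≤ sz q + 1 := Bin.sz_dbl_le _ _
  have h2 : sz (q.dbl true) ≤ sz q + 1 := Bin.sz_dbl_le _ _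
  have h3 : sz (r.dbl x) ≤ sz r + 1 := Bin.sz_dbl_le _ _
  have h4 : sz ((r.dbl x).sub (g a)) ≤ sz (r.dbl x) := Bin.sz_mono (Nat.sub_le _ _)
  unfold dmStep
  cases (r.dbl x).lt (g a) <;> simp <;> omega

instance : DecidableEq Bin := fun a b =>
  decidable_of_iff (a.val = b.val) ⟨fun h => by cases a; cases b; simp_all, fun h => h ▸ rfl⟩

@[fun_prop] theorem PT.bdiv {f g : α → Bin} (hf : PT f) (hg : PT g) :
    PT fun x => (f x).div (g x) := by
  have h := PT.dm hf hg
  refine (PT.ite (p := fun x => g x = ⟨0⟩) (by fun_prop) (PT.const ⟨0⟩) h.fst).of_eq fun x => ?_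
  by_cases e : g x = ⟨0⟩
  · simp [e, Bin.div]
  · rw [if_neg e, dm_fold _ (fun h => e (by cases hg : g x; simp_all)), bv_enc]; rfl

@[fun_prop] theorem PT.bmod {f g : α → Bin} (hf : PT f) (hg : PT g) :
    PT fun x => (f x).mod (g x) := by
  have h := PT.dm hf hg
  refine (PT.ite (p := fun x => g x = ⟨0⟩) (by fun_prop) hf h.snd).of_eq fun x => ?_
  by_cases e : g x = ⟨0⟩
  · simp [e, Bin.mod]
  · rw [if_neg e, dm_fold _ (fun h => e (by cases hg : g x; simp_all)), bv_enc]; rfl

def gcdStep (s : Bin × Bin) : Bin × Bin := if s.1 = ⟨0⟩ then s else (s.2.mod s.1, s.1)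

theorem gcd_iter (n x y : ℕ) (hxy : x ≤ y) (h : x * y < 2 ^ n) :
    gcdStep^[n] (⟨x⟩, ⟨y⟩) = (⟨0⟩, ⟨x.gcd y⟩) := by
  induction n generalizing x y with
  | zero =>
    have : x = 0 := by
      rcases Nat.eq_zero_or_pos x with h0 | h0
      · exact h0
      · have := Nat.mul_pos h0 (lt_of_lt_of_le h0 hxy); omega
    subst this; simp
  | succ n ih =>
    rw [Function.iterate_succ_apply]
    by_cases h0 : x = 0
    · subst h0
      have : gcdStep (⟨0⟩, ⟨y⟩) = (⟨0⟩, ⟨y⟩) := by simp [gcdStep]
      rw [this, ih 0 y hxy (by simp)]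
    · have : gcdStep (⟨x⟩, ⟨y⟩) = (⟨y % x⟩, ⟨x⟩) := by simp [gcdStep, h0, Bin.mod]
      have h1 := Nat.mod_lt y (Nat.pos_of_ne_zero h0)
      have h2 : y % x + x ≤ y := by
        have := Nat.div_add_mod y x
        have h3 : 1 ≤ y / x := (Nat.le_div_iff_mul_le (Nat.pos_of_ne_zero h0)).2 (by omega)
        nlinarith
      rw [this, ih _ _ h1.le (by rw [pow_succ] at h; nlinarith), Nat.gcd_rec x y]

theorem gcd_iter_le (n : ℕ) (s : Bin × Bin) :
    (gcdStep^[n] s).1.val ≤ s.1.val + s.2.val ∧ (gcdStep^[n] s).2.val ≤ s.1.val + s.2.val := by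
  induction n with
  | zero => simp
  | succ n ih =>
    rw [Function.iterate_succ_apply']
    generalize gcdStep^[n] s = t at ih
    unfold gcdStep
    split_ifs
    · exact ih
    · exact ⟨(Nat.mod_le _ _).trans ih.2, ih.1⟩

@[fun_prop] theorem PT.bgcd {f g : α → Bin} (hf : PT f) (hg : PT g) :
    PT fun x => (f x).gcd (g x) := by
  have h1 : PT gcdStep := by unfold gcdStep; fun_prop
  have h2 : PT fun s : Bin × Bin => gcdStep^[sz s.1 + sz s.2 + sz s.1 + 1] s :=
    PT.iterate (N := fun s : Bin × Bin => sz s.1 + sz s.2 + sz s.1 + 1) (init := fun s => s) h1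
      (by fun_prop) (by fun_prop) (fun n => 3 * (n + 1) + 1) (by fun_prop) (by
        rintro ⟨a, b⟩ i -
        have h := gcd_iter_le i (a, b)
        generalize gcdStep^[i] (a, b) = t at h
        obtain ⟨⟨u⟩, ⟨v⟩⟩ := t
        have e := Bin.sz_add_le a b
        have e1 : sz (Bin.mk u) ≤ sz (a.add b) := Bin.sz_mono h.1
        have e2 : sz (Bin.mk v) ≤ sz (a.add b) := Bin.sz_mono h.2
        simp only [sz_pair]; omega)
  refine ((h2.comp (PT.mk hf hg)).snd).of_eq fun x => ?_
  obtain ⟨a⟩ := f x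
  obtain ⟨b⟩ := g x
  simp only
  rw [Function.iterate_succ_apply]
  have ha := (Bin.mk a).lt_two_pow
  have hb := (Bin.mk b).lt_two_pow
  by_cases h0 : a = 0
  · subst h0
    have : gcdStep (⟨0⟩, ⟨b⟩) = (⟨0⟩, ⟨b⟩) := by simp [gcdStep]
    rw [this, gcd_iter _ 0 b (Nat.zero_le _) (by simp)]; rfl
  · have : gcdStep (⟨a⟩, ⟨b⟩) = (⟨b % a⟩, ⟨a⟩) := by simp [gcdStep, h0, Bin.mod]
    have h1 := Nat.mod_lt b (Nat.pos_of_ne_zero h0)
    rw [this, gcd_iter _ _ _ h1.le, ← Nat.gcd_rec]
    · rfl
    · have h3 : 2 ^ sz (Bin.mk a) ≤ 2 ^ (sz (Bin.mk a) + sz (Bin.mk b)) :=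
        Nat.pow_le_pow_right (by omega) (by omega)
      simp only at ha
      rw [pow_add]
      exact Nat.mul_lt_mul'' (by omega) ha

/-- From unary to binary. -/
@[fun_prop] theorem PT.toBin {f : α → ℕ} (hf : PT f) : PT fun x => Bin.mk (f x) :=
  (PT.toRaw hf.encodeNat).of_enc (fun x => x) (fun _ => rfl) fun _ => rfl

end Pool.Agent.Lib.Poly
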