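import Mathlib

/-!
Structured programs on Boolean stacks, their cost semantics, and the compiler to `FinTM2`.
-/

namespace Pool.Agent.Lib.Poly

open Turing

/-- Programs acting on registers (stacks of bits) indexed by natural numbers. -/
inductive Prog : Type
  | push : ℕ → Bool → Prog
  | pop : ℕ → Prog
  | seq : Prog → Prog → Prog
  | cond : ℕ → (Option Bool → Bool) → Prog → Prog → Prog
  | loop : ℕ → (Option Bool → Bool) → Prog → Prog

abbrev Store := ℕ → List Bool

/-- `Exec p S S' t`: the program `p` started in `S` ends in `S'` after exactly `t` steps. -/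
inductive Exec : Prog → Store → Store → ℕ → Prop
  | push (r b S) : Exec (.push r b) S (Function.update S r (b :: S r)) 1
  | pop (r S) : Exec (.pop r) S (Function.update S r (S r).tail) 1
  | seq {p q S S' S'' t t'} : Exec p S S' t → Exec q S' S'' t' → Exec (.seq p q) S S'' (t + t')
  | condT {r c p q S S' t} : c (S r).head? = true → Exec p S S' t →
      Exec (.cond r c p q) S S' (t + 1)
  | condF {r c p q S S' t} : c (S r).head? = false → Exec q S S' t →
      Exec (.cond r c p q) S S' (t + 1)
  | loopF {r c p S} : c (S r).head? = false → Exec (.loop r c p) S S 1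
  | loopT {r c p S S' S'' t t'} : c (S r).head? = true → Exec p S S' t →
      Exec (.loop r c p) S' S'' t' → Exec (.loop r c p) S S'' (t + t' + 1)

/-- Termination within `t` steps. -/
def Run (p : Prog) (S S' : Store) (t : ℕ) : Prop := ∃ t' ≤ t, Exec p S S' t'

theorem Run.mono {p S S' t t'} (h : Run p S S' t) (ht : t ≤ t') : Run p S S' t' :=
  let ⟨s, h1, h2⟩ := h; ⟨s, h1.trans ht, h2⟩

theorem Run.push (r b S) : Run (.push r b) S (Function.update S r (b :: S r)) 1 :=
  ⟨1, le_rfl, .push r b S⟩

theorem Run.pop (r S) : Run (.pop r) S (Function.update S r (S r).tail) 1 :=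
  ⟨1, le_rfl, .pop r S⟩

theorem Run.seq {p q S S' S'' t t'} (h : Run p S S' t) (h' : Run q S' S'' t') :
    Run (.seq p q) S S'' (t + t') :=
  let ⟨_, h1, h2⟩ := h; let ⟨_, h3, h4⟩ := h'; ⟨_, Nat.add_le_add h1 h3, .seq h2 h4⟩

theorem Run.condT {r c p q S S' t} (hc : c (S r).head? = true) (h : Run p S S' t) :
    Run (.cond r c p q) S S' (t + 1) :=
  let ⟨_, h1, h2⟩ := h; ⟨_, Nat.add_le_add_right h1 1, .condT hc h2⟩

theorem Run.condF {r c p q S S' t} (hc : c (S r).head? = false) (h : Run q S S' t) :
    Run (.cond r c p q) S S' (t + 1) :=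
  let ⟨_, h1, h2⟩ := h; ⟨_, Nat.add_le_add_right h1 1, .condF hc h2⟩

theorem Run.loopF {r c p S} (hc : c (S r).head? = false) : Run (.loop r c p) S S 1 :=
  ⟨1, le_rfl, .loopF hc⟩

theorem Run.loopT {r c p S S' S'' t t'} (hc : c (S r).head? = true) (h : Run p S S' t)
    (h' : Run (.loop r c p) S' S'' t') : Run (.loop r c p) S S'' (t + t' + 1) :=
  let ⟨_, h1, h2⟩ := h; let ⟨_, h3, h4⟩ := h'
  ⟨_, Nat.add_le_add_right (Nat.add_le_add h1 h3) 1, .loopT hc h2 h4⟩

theorem Exec.length_le {p S S' t} (h : Exec p S S' t) (k : ℕ) :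
    (S' k).length ≤ (S k).length + t := by
  induction h with
  | push r b S =>
    by_cases e : k = r
    · subst e; simp
    · simp [Function.update_of_ne e]
  | pop r S =>
    by_cases e : k = r
    · subst e; simp; omega
    · simp [Function.update_of_ne e]
  | seq _ _ ih1 ih2 => omega
  | condT _ _ ih => omega
  | condF _ _ ih => omega
  | loopF _ => omega
  | loopT _ _ _ ih1 ih2 => omega

theorem Run.length_le {p S S' t} (h : Run p S S' t) (k : ℕ) :
    (S' k).length ≤ (S k).length + t :=
  let ⟨_, h1, h2⟩ := h; (h2.length_le k).trans (by omega)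

/-- Renaming of registers. -/
def Prog.rename (f : ℕ → ℕ) : Prog → Prog
  | .push r b => .push (f r) b
  | .pop r => .pop (f r)
  | .seq p q => .seq (p.rename f) (q.rename f)
  | .cond r c p q => .cond (f r) c (p.rename f) (q.rename f)
  | .loop r c p => .loop (f r) c (p.rename f)

theorem Exec.rename {f : ℕ → ℕ} (hf : Function.Injective f) {p S S' t} (h : Exec p S S' t) :
    ∀ T : Store, (∀ k, T (f k) = S k) →
      ∃ T', Exec (p.rename f) T T' t ∧ (∀ k, T' (f k) = S' k) ∧
        ∀ k, (∀ j, f j ≠ k) → T' k = T k := by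
  induction h with
  | push r b S =>
    intro T hT
    refine ⟨_, .push _ _ _, fun k => ?_, fun k hk => Function.update_of_ne (hk r).symm _ _⟩
    by_cases e : k = r
    · subst e; simp [hT]
    · rw [Function.update_of_ne e, Function.update_of_ne (fun e' => e (hf e')), hT]
  | pop r S =>
    intro T hT
    refine ⟨_, .pop _ _, fun k => ?_, fun k hk => Function.update_of_ne (hk r).symm _ _⟩
    by_cases e : k = r
    · subst e; simp [hT]
    · rw [Function.update_of_ne e, Function.update_of_ne (fun e' => e (hf e')), hT]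
  | seq _ _ ih1 ih2 =>
    intro T hT
    obtain ⟨T', a1, a2, a3⟩ := ih1 T hT
    obtain ⟨T'', b1, b2, b3⟩ := ih2 T' a2
    exact ⟨T'', .seq a1 b1, b2, fun k hk => (b3 k hk).trans (a3 k hk)⟩
  | condT hc _ ih =>
    intro T hT
    obtain ⟨T', a1, a2, a3⟩ := ih T hT
    exact ⟨T', .condT (by rw [hT]; exact hc) a1, a2, a3⟩
  | condF hc _ ih =>
    intro T hT
    obtain ⟨T', a1, a2, a3⟩ := ih T hT
    exact ⟨T', .condF (by rw [hT]; exact hc) a1, a2, a3⟩
  | loopF hc =>
    intro T hT
    exact ⟨T, .loopF (by rw [hT]; exact hc), hT, fun _ _ => rfl⟩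
  | loopT hc _ _ ih1 ih2 =>
    intro T hT
    obtain ⟨T', a1, a2, a3⟩ := ih1 T hT
    obtain ⟨T'', b1, b2, b3⟩ := ih2 T' a2
    exact ⟨T'', .loopT (by rw [hT]; exact hc) a1 b1, b2, fun k hk => (b3 k hk).trans (a3 k hk)⟩

/-- All registers of the program are at most this number. -/
def Prog.bound : Prog → ℕ
  | .push r _ => r
  | .pop r => r
  | .seq p q => max p.bound q.bound
  | .cond r _ p q => max r (max p.bound q.bound)
  | .loop r _ p => max r p.bound

/-- Program points. -/
def Prog.Lab : Prog → Type
  | .push _ _ => Unit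
  | .pop _ => Unit
  | .seq p q => p.Lab ⊕ q.Lab
  | .cond _ _ p q => Option (p.Lab ⊕ q.Lab)
  | .loop _ _ p => Option p.Lab

@[reducible] def Prog.labFin : (p : Prog) → Fintype p.Lab
  | .push _ _ => inferInstanceAs (Fintype Unit)
  | .pop _ => inferInstanceAs (Fintype Unit)
  | .seq p q => @instFintypeSum _ _ p.labFin q.labFin
  | .cond _ _ p q => @instFintypeOption _ (@instFintypeSum _ _ p.labFin q.labFin)
  | .loop _ _ p => @instFintypeOption _ p.labFin

def Prog.entry : (p : Prog) → p.Lab
  | .push _ _ => ()
  | .pop _ => ()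
  | .seq p _ => .inl p.entry
  | .cond _ _ _ _ => none
  | .loop _ _ _ => none

/-- Flowchart instructions. -/
inductive Ins (Λ : Type) : Type
  | push : ℕ → Bool → Option Λ → Ins Λ
  | pop : ℕ → Option Λ → Ins Λ
  | test : ℕ → (Option Bool → Bool) → Option Λ → Option Λ → Ins Λ

def Prog.code {Λ : Type} : (p : Prog) → (p.Lab → Λ) → Option Λ → p.Lab → Ins Λ
  | .push r b, _, k, _ => .push r b k
  | .pop r, _, k, _ => .pop r k
  | .seq p q, e, _, .inl l => p.code (fun x => e (.inl x)) (some (e (.inr q.entry))) l
  | .seq _ q, e, k, .inr l => q.code (fun x => e (.inr x)) k l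
  | .cond r c p q, e, _, none => .test r c (some (e (some (.inl p.entry))))
      (some (e (some (.inr q.entry))))
  | .cond _ _ p _, e, k, some (.inl l) => p.code (fun x => e (some (.inl x))) k l
  | .cond _ _ _ q, e, k, some (.inr l) => q.code (fun x => e (some (.inr x))) k l
  | .loop r c p, e, k, none => .test r c (some (e (some p.entry))) k
  | .loop _ _ p, e, _, some l => p.code (fun x => e (some x)) (some (e none)) l

def Ins.reg {Λ : Type} : Ins Λ → ℕ
  | .push r _ _ => r
  | .pop r _ => r
  | .test r _ _ _ => r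

theorem Prog.code_reg {Λ : Type} (p : Prog) : ∀ (e : p.Lab → Λ) (k : Option Λ) (l : p.Lab),
    (p.code e k l).reg ≤ p.bound := by
  induction p with
  | push r b => intro e k l; exact le_rfl
  | pop r => intro e k l; exact le_rfl
  | seq p q ihp ihq =>
    rintro e k (l | l)
    · exact (ihp _ _ l).trans (le_max_left _ _)
    · exact (ihq _ _ l).trans (le_max_right _ _)
  | cond r c p q ihp ihq =>
    rintro e k (_ | l | l)
    · exact le_max_left _ _
    · exact (ihp _ _ l).trans ((le_max_left _ _).trans (le_max_right _ _))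
    · exact (ihq _ _ l).trans ((le_max_right _ _).trans (le_max_right _ _))
  | loop r c p ih =>
    rintro e k (_ | l)
    · exact le_max_left _ _
    · exact (ih _ _ l).trans (le_max_right _ _)

def Ins.exec {Λ : Type} : Ins Λ → Store → Option Λ × Store
  | .push r b k, S => (k, Function.update S r (b :: S r))
  | .pop r k, S => (k, Function.update S r (S r).tail)
  | .test r c k k', S => (if c (S r).head? = true then k else k', S)

def fstep {Λ : Type} (m : Λ → Ins Λ) : Option Λ × Store → Option (Option Λ × Store)
  | (none, _) => none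
  | (some l, S) => some ((m l).exec S)

theorem Exec.flow {Λ : Type} (m : Λ → Ins Λ) {p S S' t} (h : Exec p S S' t) :
    ∀ (e : p.Lab → Λ) (k : Option Λ), (∀ l, m (e l) = p.code e k l) →
      (flip bind (fstep m))^[t] (some (some (e p.entry), S)) = some (k, S') := by
  have one : ∀ (l : Λ) (S : Store) (t : ℕ), (flip bind (fstep m))^[t + 1] (some (some l, S)) =
      (flip bind (fstep m))^[t] (some ((m l).exec S)) := fun l S t => rfl
  induction h with
  | push r b S => intro e k hm; rw [one, hm]; rfl
  | pop r S => intro e k hm; rw [one, hm]; rfl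
  | seq _ _ ih1 ih2 =>
    intro e k hm
    rw [Nat.add_comm, Function.iterate_add_apply]
    erw [ih1 (fun x => e (.inl x)) _ (fun l => hm (.inl l))]
    exact ih2 (fun x => e (.inr x)) _ (fun l => hm (.inr l))
  | condT hc _ ih =>
    intro e k hm
    rw [one, hm]
    simp only [Prog.entry, Prog.code, Ins.exec, hc, if_true]
    exact ih (fun x => e (some (.inl x))) _ (fun l => hm (some (.inl l)))
  | condF hc _ ih =>
    intro e k hm
    rw [one, hm]
    simp only [Prog.entry, Prog.code, Ins.exec, hc, Bool.false_eq_true, if_false]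
    exact ih (fun x => e (some (.inr x))) _ (fun l => hm (some (.inr l)))
  | loopF hc =>
    intro e k hm
    rw [one, hm]
    simp only [Prog.entry, Prog.code, Ins.exec, hc, Bool.false_eq_true, if_false]
    rfl
  | loopT hc _ _ ih1 ih2 =>
    intro e k hm
    rw [one, hm]
    simp only [Prog.entry, Prog.code, Ins.exec, hc, if_true]
    rw [Nat.add_comm, Function.iterate_add_apply]
    erw [ih1 (fun x => e (some x)) _ (fun l => hm (some l))]
    exact ih2 e k hm

section compile

variable {Λ : Type} (R : ℕ)

abbrev St (Λ : Type) (R : ℕ) := TM2.Stmt (fun _ : Fin (R + 1) => Bool) Λ Bool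

def jump : Option Λ → St Λ R
  | none => .halt
  | some l => .goto fun _ => l

def Ins.toStmt : Ins Λ → St Λ R
  | .push r b k => .push (Fin.ofNat (R + 1) r) (fun _ => b) (jump R k)
  | .pop r k => .pop (Fin.ofNat (R + 1) r) (fun v _ => v) (jump R k)
  | .test r c k k' => .peek (Fin.ofNat (R + 1) r) (fun _ o => c o)
      (.branch id (.load (fun _ => false) (jump R k)) (.load (fun _ => false) (jump R k')))

def cfgOf (c : Option Λ × Store) : TM2.Cfg (fun _ : Fin (R + 1) => Bool) Λ Bool :=
  ⟨c.1, false, fun k => c.2 k.val⟩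

theorem stepAux_jump (k : Option Λ) (v : Bool) (S : Fin (R + 1) → List Bool) :
    TM2.stepAux (jump R k) v S = ⟨k, v, S⟩ := by
  cases k <;> rfl

theorem res_update (S : Store) (r : ℕ) (hr : r ≤ R) (l : List Bool) :
    Function.update (fun k : Fin (R + 1) => S k.val) (Fin.ofNat (R + 1) r) l =
      fun k : Fin (R + 1) => Function.update S r l k.val := by
  have e : (Fin.ofNat (R + 1) r).val = r := Nat.mod_eq_of_lt (by omega)
  funext k
  by_cases h : k = Fin.ofNat (R + 1) r
  · subst h; rw [Function.update_self, e, Function.update_self]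
  · rw [Function.update_of_ne h, Function.update_of_ne (fun e' => h (Fin.ext (e'.trans e.symm)))]

theorem stepAux_toStmt (i : Ins Λ) (hi : i.reg ≤ R) (S : Store) :
    TM2.stepAux (i.toStmt R) false (fun k : Fin (R + 1) => S k.val) = cfgOf R (i.exec S) := by
  have e : (Fin.ofNat (R + 1) i.reg).val = i.reg := Nat.mod_eq_of_lt (by omega)
  cases i with
  | push r b k =>
    simp only [Ins.reg] at hi e
    simp only [Ins.toStmt, TM2.stepAux, stepAux_jump, Ins.exec, cfgOf, e, res_update R S r hi]
  | pop r k =>
    simp only [Ins.reg] at hi e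
    simp only [Ins.toStmt, TM2.stepAux, stepAux_jump, Ins.exec, cfgOf, e, res_update R S r hi]
  | test r c k k' =>
    simp only [Ins.reg] at hi e
    simp only [Ins.toStmt, TM2.stepAux, stepAux_jump, Ins.exec, cfgOf, e, id]
    cases c (S r).head? <;> simp

theorem sim_flow (m : Λ → Ins Λ) (hm : ∀ l, (m l).reg ≤ R) (t : ℕ) (c : Option (Option Λ × Store)) :
    (flip bind (TM2.step fun l => (m l).toStmt R))^[t] (c.map (cfgOf R)) =
      ((flip bind (fstep m))^[t] c).map (cfgOf R) := by
  induction t generalizing c with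
  | zero => rfl
  | succ t ih =>
    rw [Function.iterate_succ_apply, Function.iterate_succ_apply, ← ih]
    congr 1
    rcases c with _ | ⟨_ | l, S⟩
    · rfl
    · rfl
    · exact congrArg some (stepAux_toStmt R (m l) (hm l) S)

end compile

/-- The store with `l` in register zero and all other registers empty. -/
def single (l : List Bool) : Store := Function.update (fun _ => []) 0 l

/-- The machine of a program. -/
def Prog.tm (p : Prog) : FinTM2 where
  K := Fin (p.bound + 1)
  k₀ := 0
  k₁ := 0
  Γ _ := Bool
  Λ := p.Lab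
  main := p.entry
  ΛFin := p.labFin
  σ := Bool
  initialState := false
  m l := (p.code id none l).toStmt p.bound

theorem Prog.tm_run (p : Prog) {x y : List Bool} {t : ℕ} (h : Exec p (single x) (single y) t) :
    (flip bind p.tm.step)^[t] (some (initList p.tm x)) = some (haltList p.tm y) := by
  have h1 := h.flow (p.code id none) id none (fun _ => rfl)
  have h2 := sim_flow p.bound (p.code id none) (p.code_reg id none) t
    (some (some p.entry, single x))
  erw [h1] at h2
  have key : ∀ (l : List Bool) (k : Fin (p.bound + 1)), single l k.val =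
      if h : k = 0 then l else [] := by
    intro l k
    by_cases hk : k = 0
    · subst hk; simp [single]
    · rw [dif_neg hk, single, Function.update_of_ne (a' := 0) (fun e => hk (Fin.ext e))]
  have e1 : initList p.tm x = cfgOf p.bound (some p.entry, single x) := by
    simp only [initList, cfgOf, Prog.tm]
    congr 1
    funext k
    rw [key]
    rfl
  have e2 : haltList p.tm y = cfgOf p.bound (none, single y) := by
    simp only [haltList, cfgOf, Prog.tm]
    congr 1
    funext k
    rw [key]
    rfl
  rw [e1, e2]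
  exact h2

theorem polyTime_of_prog {α β : Type} (ea : α → List Bool) (eb : β → List Bool) (f : α → β)
    (p : Prog) (q : Polynomial ℕ)
    (h : ∀ a, Run p (single (ea a)) (single (eb (f a))) (q.eval (ea a).length)) :
    Nonempty (TM2ComputableInPolyTime ea eb f) := by
  choose t ht1 ht2 using h
  refine ⟨{ tm := p.tm
            inputAlphabet := Equiv.refl Bool
            outputAlphabet := Equiv.refl Bool
            time := q
            outputsFun := fun a => ⟨⟨t a, ?_⟩, ht1 a⟩ }⟩
  have := p.tm_run (ht2 a)
  erw [List.map_id, List.map_id]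
  exact this

end Pool.Agent.Lib.Poly
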