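import Mathlib
import Pool.Prelude.Def_H_3587d628
import Pool.Agent.Lib.Poly.Prog

/-!
The class `PT` of polynomial-time functions between encoded types: primitives.
-/

namespace Pool.Agent.Lib.Poly

open N487b59b3 (delimit)

/-- Polynomial functions with natural coefficients. -/
@[fun_prop] def IsPoly (t : ℕ → ℕ) : Prop := ∃ p : Polynomial ℕ, ∀ n, t n = p.eval n

@[fun_prop] theorem IsPoly.id : IsPoly fun n => n := ⟨Polynomial.X, fun _ => by simp⟩

@[fun_prop] theorem IsPoly.const (c : ℕ) : IsPoly fun _ => c :=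
  ⟨Polynomial.C c, fun _ => by simp⟩

@[fun_prop] theorem IsPoly.comp {f g : ℕ → ℕ} (hf : IsPoly f) (hg : IsPoly g) :
    IsPoly fun n => f (g n) :=
  let ⟨p, hp⟩ := hf; let ⟨q, hq⟩ := hg
  ⟨p.comp q, fun n => by simp [hp, hq, Polynomial.eval_comp]⟩

@[fun_prop] theorem IsPoly.add {f g : ℕ → ℕ} (hf : IsPoly f) (hg : IsPoly g) :
    IsPoly fun n => f n + g n :=
  let ⟨p, hp⟩ := hf; let ⟨q, hq⟩ := hg
  ⟨p + q, fun n => by simp [hp, hq]⟩

@[fun_prop] theorem IsPoly.mul {f g : ℕ → ℕ} (hf : IsPoly f) (hg : IsPoly g) :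
    IsPoly fun n => f n * g n :=
  let ⟨p, hp⟩ := hf; let ⟨q, hq⟩ := hg
  ⟨p * q, fun n => by simp [hp, hq]⟩

@[fun_prop] theorem IsPoly.pow {f : ℕ → ℕ} (hf : IsPoly f) (k : ℕ) : IsPoly fun n => f n ^ k :=
  let ⟨p, hp⟩ := hf
  ⟨p ^ k, fun n => by simp [hp]⟩

theorem IsPoly.eval (p : Polynomial ℕ) : IsPoly fun n => p.eval n := ⟨p, fun _ => rfl⟩

theorem IsPoly.mono {f : ℕ → ℕ} (hf : IsPoly f) {m n : ℕ} (h : m ≤ n) : f m ≤ f n := by
  obtain ⟨p, hp⟩ := hf
  rw [hp, hp]
  clear hp
  induction p using Polynomial.induction_on' with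
  | add p q hp hq => simp only [Polynomial.eval_add]; omega
  | monomial k a =>
    simp only [Polynomial.eval_monomial]
    exact Nat.mul_le_mul_left _ (Nat.pow_le_pow_left h _)

/-- Types with an injective encoding by bit strings. -/
class Enc (α : Type) where
  enc : α → List Bool
  inj : Function.Injective enc

export Enc (enc)

/-- Raw bit strings, encoded by themselves. -/
structure Raw where
  bits : List Bool

instance : Enc Raw := ⟨Raw.bits, fun ⟨_⟩ ⟨_⟩ h => congrArg Raw.mk h⟩

instance : Enc Unit := ⟨fun _ => [], fun _ _ _ => rfl⟩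

instance : Enc Bool := ⟨fun b => [b], fun _ _ h => by simpa using h⟩

instance : Enc ℕ := ⟨fun n => List.replicate n false, fun _ _ h => by
  simpa using congrArg List.length h⟩

instance {α β : Type} [Enc α] [Enc β] : Enc (α × β) :=
  ⟨fun p => delimit (enc p.1) ++ enc p.2, fun p q h => by
    have := congrArg N487b59b3.undelimit h
    simp only [N487b59b3.undelimit_delimit, Option.some.injEq, Prod.mk.injEq] at this
    exact Prod.ext (Enc.inj this.1) (Enc.inj this.2)⟩

instance {α : Type} [Enc α] : Enc (List α) :=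
  ⟨fun l => ((l.map enc).map delimit).flatten, fun p q h => by
    have := congrArg N487b59b3.undelimitBlocks h
    simp only [N487b59b3.undelimitBlocks_flatten_delimit, Option.some.injEq] at this
    exact (List.map_injective_iff.2 Enc.inj) this⟩

/-- The size of a value. -/
def sz {α : Type} [Enc α] (a : α) : ℕ := (enc a).length

section sizes
variable {α β : Type} [Enc α] [Enc β]

theorem enc_pair (a : α) (b : β) : enc (a, b) = delimit (enc a) ++ enc b := rfl
theorem enc_nil : enc ([] : List α) = [] := rfl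
theorem enc_cons (a : α) (l : List α) : enc (a :: l) = delimit (enc a) ++ enc l := rfl
theorem enc_bool (b : Bool) : enc b = [b] := rfl
theorem enc_nat (n : ℕ) : enc n = List.replicate n false := rfl
theorem enc_raw (l : List Bool) : enc (Raw.mk l) = l := rfl

@[simp] theorem sz_pair (a : α) (b : β) : sz (a, b) = 2 * sz a + 1 + sz b := by
  simp [sz, enc_pair]
@[simp] theorem sz_nil : sz ([] : List α) = 0 := rfl
@[simp] theorem sz_cons (a : α) (l : List α) : sz (a :: l) = 2 * sz a + 1 + sz l := by
  simp [sz, enc_cons]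
@[simp] theorem sz_bool (b : Bool) : sz b = 1 := rfl
@[simp] theorem sz_nat (n : ℕ) : sz n = n := by simp [sz, enc_nat]
@[simp] theorem sz_unit (u : Unit) : sz u = 0 := rfl
@[simp] theorem sz_raw (l : List Bool) : sz (Raw.mk l) = l.length := rfl
@[simp] theorem sz_append (l l' : List α) : sz (l ++ l') = sz l + sz l' := by
  induction l with
  | nil => simp
  | cons a l ih => simp [ih]; omega

theorem length_le_sz (l : List α) : l.length ≤ sz l := by
  induction l with
  | nil => simp
  | cons a l ih => simp; omega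

theorem sz_le_of_mem {l : List α} {a : α} (h : a ∈ l) : sz a ≤ sz l := by
  induction l with
  | nil => cases h
  | cons b l ih =>
    rcases List.mem_cons.1 h with rfl | h
    · simp; omega
    · have := ih h; simp; omega

theorem sz_fst_le (p : α × β) : sz p.1 ≤ sz p := by
  obtain ⟨a, b⟩ := p; simp; omega

theorem sz_snd_le (p : α × β) : sz p.2 ≤ sz p := by
  obtain ⟨a, b⟩ := p; simp

theorem enc_units (n : ℕ) : enc (List.replicate n ()) = enc n := by
  induction n with
  | zero => rfl
  | succ n ih => rw [List.replicate_succ, enc_cons, ih]; rfl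

end sizes

/-- A store with three named registers. -/
def s3 (a b c : List Bool) : Store
  | 0 => a
  | 1 => b
  | 2 => c
  | _ => []

theorem single_eq (l : List Bool) : single l = s3 l [] [] := by
  funext k
  rcases k with _ | _ | _ | k <;> rfl

theorem upd0 (a b c x : List Bool) : Function.update (s3 a b c) 0 x = s3 x b c := by
  funext k; rcases k with _ | _ | _ | k <;> rfl
theorem upd1 (a b c x : List Bool) : Function.update (s3 a b c) 1 x = s3 a x c := by
  funext k; rcases k with _ | _ | _ | k <;> rfl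
theorem upd2 (a b c x : List Bool) : Function.update (s3 a b c) 2 x = s3 a b x := by
  funext k; rcases k with _ | _ | _ | k <;> rfl

theorem push0 (β : Bool) (a b c : List Bool) : Run (.push 0 β) (s3 a b c) (s3 (β :: a) b c) 1 :=
  by have := Run.push 0 β (s3 a b c); rwa [upd0] at this
theorem push1 (β : Bool) (a b c : List Bool) : Run (.push 1 β) (s3 a b c) (s3 a (β :: b) c) 1 :=
  by have := Run.push 1 β (s3 a b c); rwa [upd1] at this
theorem push2 (β : Bool) (a b c : List Bool) : Run (.push 2 β) (s3 a b c) (s3 a b (β :: c)) 1 :=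
  by have := Run.push 2 β (s3 a b c); rwa [upd2] at this
theorem pop0 (a b c : List Bool) : Run (.pop 0) (s3 a b c) (s3 a.tail b c) 1 :=
  by have := Run.pop 0 (s3 a b c); rwa [upd0] at this
theorem pop1 (a b c : List Bool) : Run (.pop 1) (s3 a b c) (s3 a b.tail c) 1 :=
  by have := Run.pop 1 (s3 a b c); rwa [upd1] at this

def sh (r k : ℕ) : ℕ := if k = 0 then r else k + 2

theorem call_aux {P : Prog} {x y : List Bool} {t : ℕ} (h : Run P (single x) (single y) t)
    (r : ℕ) (hr : r < 3) (T : Store) (h1 : T r = x) (h2 : ∀ k, T (k + 3) = []) :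
    Run (P.rename (sh r)) T (Function.update T r y) t := by
  obtain ⟨t', ht, h⟩ := h
  have inj : Function.Injective (sh r) := by
    intro a b e
    unfold sh at e
    split_ifs at e <;> omega
  obtain ⟨T', a1, a2, a3⟩ := h.rename inj T (by
    intro k
    rcases k with _ | k
    · exact h1
    · exact h2 k)
  refine ⟨t', ht, ?_⟩
  convert a1
  funext k
  by_cases e : k = r
  · subst e
    rw [Function.update_self]
    exact (a2 0).symm
  · rw [Function.update_of_ne e]
    by_cases hk : k < 3
    · refine (a3 k fun j => ?_).symm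
      unfold sh
      split_ifs <;> omega
    · obtain ⟨j, rfl⟩ : ∃ j, k = j + 3 := ⟨k - 3, by omega⟩
      rw [h2]
      exact (a2 (j + 1)).symm

theorem call0 {P : Prog} {x y : List Bool} {t : ℕ} (h : Run P (single x) (single y) t)
    (b c : List Bool) : Run (P.rename (sh 0)) (s3 x b c) (s3 y b c) t :=
  upd0 x b c y ▸ call_aux h 0 (by omega) _ rfl fun _ => rfl

theorem call1 {P : Prog} {x y : List Bool} {t : ℕ} (h : Run P (single x) (single y) t)
    (a c : List Bool) : Run (P.rename (sh 1)) (s3 a x c) (s3 a y c) t :=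
  upd1 a x c y ▸ call_aux h 1 (by omega) _ rfl fun _ => rfl

def isT : Option Bool → Bool
  | some true => true
  | _ => false

def skip : Prog := .loop 0 (fun _ => false) (.pop 0)

theorem run_skip (S : Store) : Run skip S S 1 := Run.loopF rfl

def forEach (r : ℕ) (p : Bool → Prog) : Prog :=
  .loop r Option.isSome (.cond r isT (.seq (.pop r) (p true)) (.seq (.pop r) (p false)))

theorem run_forEach {σ : Type} (r : ℕ) (p : Bool → Prog) (F : List Bool → σ → Store)
    (step : σ → Bool → σ) (c : ℕ) (hr : ∀ l s, F l s r = l)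
    (hu : ∀ l l' s, Function.update (F l s) r l' = F l' s)
    (hp : ∀ β l s, Run (p β) (F l s) (F l (step s β)) c) (l : List Bool) (s : σ) :
    Run (forEach r p) (F l s) (F [] (l.foldl step s)) (l.length * (c + 3) + 1) := by
  induction l generalizing s with
  | nil => exact (Run.loopF (by rw [hr]; rfl)).mono (by simp)
  | cons β l ih =>
    have h1 : Run (.pop r) (F (β :: l) s) (F l s) 1 := by
      have := Run.pop r (F (β :: l) s)
      rwa [hu, hr] at this
    have h2 : Run (.cond r isT (.seq (.pop r) (p true)) (.seq (.pop r) (p false)))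
        (F (β :: l) s) (F l (step s β)) (1 + c + 1) := by
      cases β
      · exact Run.condF (by rw [hr]; rfl) (h1.seq (hp _ _ _))
      · exact Run.condT (by rw [hr]; rfl) (h1.seq (hp _ _ _))
    refine (Run.loopT (by rw [hr]; rfl) h2 (ih _)).mono ?_
    rw [List.length_cons, Nat.succ_mul]
    omega

theorem foldl_cons (l s : List Bool) : l.foldl (fun s β => β :: s) s = l.reverse ++ s := by
  induction l generalizing s with
  | nil => rfl
  | cons a l ih => simp [ih]

theorem run_clear0 (a b c : List Bool) :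
    Run (forEach 0 fun _ => skip) (s3 a b c) (s3 [] b c) (a.length * 4 + 1) :=
  run_forEach 0 _ (fun l (_ : Unit) => s3 l b c) (fun s _ => s) 1 (fun _ _ => rfl)
    (fun _ _ _ => upd0 _ _ _ _) (fun _ _ _ => run_skip _) a ()

theorem run_clear1 (a b c : List Bool) :
    Run (forEach 1 fun _ => skip) (s3 a b c) (s3 a [] c) (b.length * 4 + 1) :=
  run_forEach 1 _ (fun l (_ : Unit) => s3 a l c) (fun s _ => s) 1 (fun _ _ => rfl)
    (fun _ _ _ => upd1 _ _ _ _) (fun _ _ _ => run_skip _) b ()

theorem run_mv02 (a b : List Bool) :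
    Run (forEach 0 (.push 2)) (s3 a b []) (s3 [] b a.reverse) (a.length * 4 + 1) := by
  have := run_forEach 0 (.push 2) (fun l s => s3 l b s) (fun s β => β :: s) 1 (fun _ _ => rfl)
    (fun _ _ _ => upd0 _ _ _ _) (fun _ _ _ => push2 _ _ _ _) a []
  rwa [foldl_cons, List.append_nil] at this

theorem run_mv12 (a b : List Bool) :
    Run (forEach 1 (.push 2)) (s3 a b []) (s3 a [] b.reverse) (b.length * 4 + 1) := by
  have := run_forEach 1 (.push 2) (fun l s => s3 a l s) (fun s β => β :: s) 1 (fun _ _ => rfl)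
    (fun _ _ _ => upd1 _ _ _ _) (fun _ _ _ => push2 _ _ _ _) b []
  rwa [foldl_cons, List.append_nil] at this

theorem run_mv10 (b : List Bool) :
    Run (forEach 1 (.push 0)) (s3 [] b []) (s3 b.reverse [] []) (b.length * 4 + 1) := by
  have := run_forEach 1 (.push 0) (fun l s => s3 s l []) (fun s β => β :: s) 1 (fun _ _ => rfl)
    (fun _ _ _ => upd1 _ _ _ _) (fun _ _ _ => push0 _ _ _ _) b []
  rwa [foldl_cons, List.append_nil] at this

def dupP : Prog := .seq (forEach 0 (.push 2)) (forEach 2 fun β => .seq (.push 0 β) (.push 1 β))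

theorem run_dup (a : List Bool) : Run dupP (s3 a [] []) (s3 a a []) (a.length * 9 + 2) := by
  have := run_forEach 2 (fun β => .seq (.push 0 β) (.push 1 β)) (fun l s => s3 s s l)
    (fun s β => β :: s) 2 (fun _ _ => rfl)
    (fun _ _ _ => upd2 _ _ _ _) (fun _ _ _ => (push0 _ _ _ _).seq (push1 _ _ _ _)) a.reverse []
  rw [foldl_cons, List.append_nil, List.reverse_reverse, List.length_reverse] at this
  exact ((run_mv02 a []).seq this).mono (by omega)

def joinP : Prog := .seq (forEach 1 (.push 2)) (.seq (.push 0 false)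
  (forEach 2 fun β => .seq (.push 0 β) (.push 0 true)))

theorem run_join (x y : List Bool) :
    Run joinP (s3 y x []) (s3 (delimit x ++ y) [] []) (x.length * 9 + 3) := by
  have := run_forEach 2 (fun β => .seq (.push 0 β) (.push 0 true)) (fun l s => s3 s [] l)
    (fun s β => true :: β :: s) 2 (fun _ _ => rfl)
    (fun _ _ _ => upd2 _ _ _ _) (fun _ _ _ => (push0 _ _ _ _).seq (push0 _ _ _ _)) x.reverse
    (false :: y)
  have e : x.reverse.foldl (fun s β => true :: β :: s) (false :: y) = delimit x ++ y := by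
    rw [List.foldl_reverse]
    clear this
    induction x with
    | nil => rfl
    | cons a x ih => simp [delimit, ih]
  rw [e, List.length_reverse] at this
  exact ((run_mv12 y x).seq ((push0 _ _ _ _).seq this)).mono (by omega)

def bitsP : Prog := .seq (forEach 0 (.push 2))
  (forEach 2 fun β => .seq (.push 0 false) (.seq (.push 0 β) (.push 0 true)))

theorem run_bits (x : List Bool) :
    Run bitsP (s3 x [] []) (s3 (enc x) [] []) (x.length * 10 + 2) := by
  have := run_forEach 2 (fun β => .seq (.push 0 false) (.seq (.push 0 β) (.push 0 true)))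
    (fun l s => s3 s [] l) (fun s β => true :: β :: false :: s) 3 (fun _ _ => rfl)
    (fun _ _ _ => upd2 _ _ _ _)
    (fun _ _ _ => (push0 _ _ _ _).seq ((push0 _ _ _ _).seq (push0 _ _ _ _))) x.reverse []
  have e : x.reverse.foldl (fun s β => true :: β :: false :: s) [] = enc x := by
    rw [List.foldl_reverse]
    clear this
    induction x with
    | nil => rfl
    | cons a x ih => rw [List.foldr_cons, ih]; rfl
  rw [e, List.length_reverse] at this
  exact ((run_mv02 x []).seq this).mono (by omega)

def parseP : Prog := .loop 0 isT (.seq (.pop 0)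
  (.cond 0 isT (.seq (.pop 0) (.push 1 true)) (.seq (.pop 0) (.push 1 false))))

theorem run_parse (x y acc : List Bool) :
    Run parseP (s3 (delimit x ++ y) acc []) (s3 (false :: y) (x.reverse ++ acc) [])
      (x.length * 5 + 1) := by
  induction x generalizing acc with
  | nil => exact Run.loopF rfl
  | cons β x ih =>
    have h : Run (.cond 0 isT (.seq (.pop 0) (.push 1 true)) (.seq (.pop 0) (.push 1 false)))
        (s3 (β :: (delimit x ++ y)) acc []) (s3 (delimit x ++ y) (β :: acc) []) (1 + 1 + 1) := by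
      cases β
      · exact Run.condF rfl ((pop0 _ _ _).seq (push1 _ _ _ _))
      · exact Run.condT rfl ((pop0 _ _ _).seq (push1 _ _ _ _))
    have := Run.loopT (r := 0) (c := isT) (S := s3 (delimit (β :: x) ++ y) acc []) rfl
      ((pop0 _ _ _).seq h) (ih (β :: acc))
    rw [List.reverse_cons, List.append_assoc]
    exact this.mono (by simp; omega)

def fstP : Prog := .seq parseP (.seq (forEach 0 fun _ => skip) (forEach 1 (.push 0)))

theorem run_fst (x y : List Bool) :
    Run fstP (s3 (delimit x ++ y) [] []) (s3 x [] []) ((delimit x ++ y).length * 5 + 7) := by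
  have h := run_mv10 (x.reverse ++ [])
  rw [List.append_nil, List.reverse_reverse] at h
  have h0 := run_parse x y []
  rw [List.append_nil] at h0
  refine (h0.seq ((run_clear0 _ _ _).seq h)).mono ?_
  simp
  omega

def sndP : Prog := .seq parseP (.seq (.pop 0) (forEach 1 fun _ => skip))

theorem run_snd (x y : List Bool) :
    Run sndP (s3 (delimit x ++ y) [] []) (s3 y [] []) ((delimit x ++ y).length * 5 + 7) := by
  refine ((run_parse x y []).seq ((pop0 _ _ _).seq (run_clear1 _ _ _))).mono ?_
  simp
  omega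

theorem run_snd_nil : Run sndP (s3 [] [] []) (s3 [] [] []) 7 :=
  ((Run.loopF rfl).seq ((pop0 _ _ _).seq (run_clear1 _ _ _))).mono (by simp)

theorem run_fst_nil : Run fstP (s3 [] [] []) (s3 [] [] []) 7 :=
  ((Run.loopF rfl).seq ((run_clear0 _ _ _).seq (run_mv10 []))).mono (by simp)

def pushAll : List Bool → Prog
  | [] => skip
  | β :: l => .seq (pushAll l) (.push 0 β)

theorem run_pushAll (l : List Bool) : Run (pushAll l) (s3 [] [] []) (s3 l [] []) (l.length + 1) := by
  induction l with
  | nil => exact run_skip _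
  | cons β l ih => exact ih.seq (push0 _ _ _ _)

/-- Polynomial-time computable functions. -/
@[fun_prop] def PT {α β : Type} [Enc α] [Enc β] (f : α → β) : Prop :=
  ∃ (P : Prog) (t : ℕ → ℕ), IsPoly t ∧
    ∀ a, Run P (single (enc a)) (single (enc (f a))) (t (sz a))

namespace PT

variable {α β γ δ : Type} [Enc α] [Enc β] [Enc γ] [Enc δ]

theorem of_s3 {f : α → β} (P : Prog) (t : ℕ → ℕ) (ht : IsPoly t)
    (h : ∀ a, Run P (s3 (enc a) [] []) (s3 (enc (f a)) [] []) (t (sz a))) : PT f :=
  ⟨P, t, ht, fun a => by rw [single_eq, single_eq]; exact h a⟩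

theorem size {f : α → β} (hf : PT f) : ∃ t, IsPoly t ∧ ∀ a, sz (f a) ≤ t (sz a) := by
  obtain ⟨P, t, ht, h⟩ := hf
  exact ⟨fun n => n + t n, by fun_prop, fun a => (h a).length_le 0⟩

/-- Change of types along equal encodings. -/
theorem of_enc {f : α → β} {g : γ → δ} (hf : PT f) (i : γ → α) (hi : ∀ c, enc (i c) = enc c)
    (ho : ∀ c, enc (f (i c)) = enc (g c)) : PT g := by
  obtain ⟨P, t, ht, h⟩ := hf
  refine ⟨P, t, ht, fun c => ?_⟩
  have := h (i c)
  rwa [sz, hi, ho] at this

theorem of_eq {f g : α → β} (hf : PT f) (h : ∀ a, f a = g a) : PT g :=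
  (funext h : f = g) ▸ hf

@[fun_prop] theorem id : PT fun x : α => x :=
  ⟨skip, fun _ => 1, by fun_prop, fun _ => run_skip _⟩

theorem cast {f : α → β} (h : ∀ a, enc a = enc (f a)) : PT f :=
  PT.id.of_enc (fun a => a) (fun _ => rfl) h

@[fun_prop] theorem const (b : β) : PT fun _ : α => b :=
  of_s3 (.seq (forEach 0 fun _ => skip) (pushAll (enc b))) (fun n => n * 4 + 1 + (sz b + 1))
    (by fun_prop) fun _ => (run_clear0 _ _ _).seq (run_pushAll _)

@[fun_prop] theorem comp {f : β → γ} {g : α → β} (hf : PT f) (hg : PT g) :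
    PT fun x => f (g x) := by
  obtain ⟨s, hs, hs'⟩ := hg.size
  obtain ⟨P, t, ht, h⟩ := hf
  obtain ⟨Q, u, hu, h'⟩ := hg
  exact ⟨.seq Q P, fun n => u n + t (s n), by fun_prop, fun a =>
    (h' a).seq ((h (g a)).mono (ht.mono (hs' a)))⟩

@[fun_prop] theorem mk {f : α → β} {g : α → γ} (hf : PT f) (hg : PT g) :
    PT fun x => (f x, g x) := by
  obtain ⟨s, hs, hs'⟩ := hf.size
  obtain ⟨P, t, ht, h⟩ := hf
  obtain ⟨Q, u, hu, h'⟩ := hg
  refine of_s3 (.seq dupP (.seq (Q.rename (sh 0)) (.seq (P.rename (sh 1)) joinP)))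
    (fun n => n * 9 + 2 + (u n + (t n + (s n * 9 + 3)))) (by fun_prop) fun a => ?_
  refine (run_dup _).seq ((call0 (h' a) _ _).seq ((call1 (h a) _ _).seq
    ((run_join _ _).mono ?_)))
  have := hs' a
  unfold sz at this ⊢
  omega

theorem fst' : PT fun p : α × β => p.1 :=
  of_s3 fstP (fun n => n * 5 + 7) (by fun_prop) fun _ => run_fst _ _

theorem snd' : PT fun p : α × β => p.2 :=
  of_s3 sndP (fun n => n * 5 + 7) (by fun_prop) fun _ => run_snd _ _

@[fun_prop] theorem fst {f : α → β × γ} (hf : PT f) : PT fun x => (f x).1 := fst'.comp hf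

@[fun_prop] theorem snd {f : α → β × γ} (hf : PT f) : PT fun x => (f x).2 := snd'.comp hf

theorem tail' : PT fun l : List α => l.tail := by
  refine of_s3 sndP (fun n => n * 5 + 7) (by fun_prop) fun l => ?_
  cases l with
  | nil => exact run_snd_nil
  | cons a l => exact run_snd _ _

@[fun_prop] theorem tail {f : α → List β} (hf : PT f) : PT fun x => (f x).tail := tail'.comp hf

@[fun_prop] theorem cons {f : α → β} {g : α → List β} (hf : PT f) (hg : PT g) :
    PT fun x => f x :: g x :=
  (mk hf hg).of_enc (fun a => a) (fun _ => rfl) fun _ => rfl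

theorem sel : PT fun p : Bool × α × α => cond p.1 p.2.1 p.2.2 := by
  refine of_s3 (.seq (.pop 0) (.cond 0 isT (.seq (.pop 0) (.seq (.pop 0) fstP))
    (.seq (.pop 0) (.seq (.pop 0) sndP)))) (fun n => n * 5 + 11) (by fun_prop) ?_
  rintro ⟨b, x, y⟩
  have e : sz (b, x, y) = (delimit (enc x) ++ enc y).length + 3 := by
    simp [sz, enc_pair, enc_bool]; omega
  cases b
  · exact ((pop0 _ _ _).seq (Run.condF rfl ((pop0 _ _ _).seq ((pop0 _ _ _).seq
      (run_snd (enc x) (enc y)))))).mono (by rw [e]; omega)
  · exact ((pop0 _ _ _).seq (Run.condT rfl ((pop0 _ _ _).seq ((pop0 _ _ _).seq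
      (run_fst (enc x) (enc y)))))).mono (by rw [e]; omega)

@[fun_prop] theorem cond {c : α → Bool} {f g : α → β} (hc : PT c) (hf : PT f) (hg : PT g) :
    PT fun x => cond (c x) (f x) (g x) :=
  sel.comp (mk hc (mk hf hg))

theorem rawEmpty : PT fun r : Raw => r.bits.isEmpty := by
  refine of_s3 (.cond 0 Option.isSome (.seq (forEach 0 fun _ => skip) (.push 0 false))
    (.push 0 true)) (fun n => n * 4 + 3) (by fun_prop) ?_
  rintro ⟨_ | ⟨β, l⟩⟩
  · exact (Run.condF rfl (push0 _ _ _ _)).mono (by omega)
  · exact Run.condT rfl ((run_clear0 _ _ _).seq (push0 _ _ _ _))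

theorem rawCons : PT fun p : Bool × Raw => Raw.mk (p.1 :: p.2.bits) := by
  refine of_s3 (.seq (.pop 0) (.cond 0 isT (.seq (.pop 0) (.seq (.pop 0) (.push 0 true)))
    (.seq (.pop 0) (.seq (.pop 0) (.push 0 false))))) (fun _ => 5) (by fun_prop) ?_
  rintro ⟨b, ⟨x⟩⟩
  cases b
  · exact (pop0 _ _ _).seq (Run.condF rfl ((pop0 _ _ _).seq ((pop0 _ _ _).seq (push0 _ _ _ _))))
  · exact (pop0 _ _ _).seq (Run.condT rfl ((pop0 _ _ _).seq ((pop0 _ _ _).seq (push0 _ _ _ _))))

/-- The encoding itself is polynomial-time computable. -/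
theorem encode : PT fun a : α => enc a :=
  of_s3 bitsP (fun n => n * 10 + 2) (by fun_prop) fun _ => run_bits _

/-- The size of the input, in unary. -/
theorem szf : PT fun a : α => sz a := by
  refine of_s3 (.seq (forEach 0 fun _ => .push 1 false) (forEach 1 (.push 0)))
    (fun n => n * 4 + 1 + (n * 4 + 1)) (by fun_prop) fun a => ?_
  have h := run_forEach 0 (fun _ => .push 1 false) (fun l s => s3 l s []) (fun s _ => false :: s) 1
    (fun _ _ => rfl) (fun _ _ _ => upd0 _ _ _ _) (fun _ _ _ => push1 _ _ _ _) (enc a) []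
  have e : ∀ (l : List Bool) (n : ℕ), l.foldl (fun s _ => false :: s) (List.replicate n false) =
      List.replicate (l.length + n) false := by
    intro l
    induction l with
    | nil => simp
    | cons b l ih =>
      intro n
      rw [List.foldl_cons, ← List.replicate_succ, ih, List.length_cons]
      congr 1
      omega
  have e' : (enc a).foldl (fun s _ => false :: s) [] = List.replicate (sz a) false := e _ 0
  rw [e'] at h
  have h2 := run_mv10 (List.replicate (sz a) false)
  rw [List.reverse_replicate, List.length_replicate] at h2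
  exact h.seq h2

/-- The head of a nonempty list, as a raw string. -/
theorem rawHead : PT fun l : List α => Raw.mk ((l.head?.map enc).getD []) := by
  refine of_s3 fstP (fun n => n * 5 + 7) (by fun_prop) fun l => ?_
  cases l with
  | nil => exact run_fst_nil
  | cons a l => exact run_fst _ _

theorem loop_aux {f : α → α} {P : Prog} {t : ℕ → ℕ} (ht : IsPoly t)
    (h : ∀ a, Run P (single (enc a)) (single (enc (f a))) (t (sz a))) (B : ℕ) (n : ℕ) :
    ∀ a, (∀ i ≤ n, sz (f^[i] a) ≤ B) →
      Run (.loop 1 Option.isSome (.seq (.pop 1) (P.rename (sh 0))))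
        (s3 (enc a) (enc n) []) (s3 (enc (f^[n] a)) [] []) (n * (t B + 2) + 1) := by
  induction n with
  | zero => intro a _; exact (Run.loopF rfl).mono (by omega)
  | succ n ih =>
    intro a hb
    have h1 := ih (f a) fun i hi => by
      rw [← Function.iterate_succ_apply]; exact hb _ (by omega)
    have h2 := (call0 (h a) (enc n) []).mono (ht.mono (hb 0 (by omega)))
    have := Run.loopT (r := 1) (c := Option.isSome) (S := s3 (enc a) (enc (n + 1)) []) rfl
      ((pop1 _ _ _).seq h2) h1
    refine this.mono ?_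
    rw [Nat.succ_mul]
    omega

/-- Iteration with a polynomial bound on the sizes of the intermediate values. -/
theorem iterate {f : β → β} {N : α → ℕ} {init : α → β} (hf : PT f) (hN : PT N) (hi : PT init)
    (b : ℕ → ℕ) (hb : IsPoly b) (h : ∀ a, ∀ i ≤ N a, sz (f^[i] (init a)) ≤ b (sz a)) :
    PT fun a => f^[N a] (init a) := by
  obtain ⟨s, hs, hs'⟩ := hN.size
  obtain ⟨P, t, ht, h1⟩ := hf
  obtain ⟨Q, u, hu, h2⟩ := hN
  obtain ⟨R, v, hv, h3⟩ := hi
  refine of_s3 (.seq dupP (.seq (R.rename (sh 0)) (.seq (Q.rename (sh 1))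
    (.loop 1 Option.isSome (.seq (.pop 1) (P.rename (sh 0)))))))
    (fun n => n * 9 + 2 + (v n + (u n + (s n * (t (b n) + 2) + 1)))) (by fun_prop) fun a => ?_
  refine (run_dup _).seq ((call0 (h3 a) _ _).seq ((call1 (h2 a) _ _).seq
    ((loop_aux ht h1 _ _ _ (h a)).mono ?_)))
  have := hs' a
  rw [sz_nat] at this
  exact Nat.add_le_add_right (Nat.mul_le_mul_right _ this) _

/-- Bridge to Turing machines, for any encodings that agree with ours. -/
theorem tm2 {f : α → β} (hf : PT f) {α' β' : Type} (ea : α' → List Bool) (eb : β' → List Bool)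
    (g : α' → β') (i : α' → α) (hi : ∀ a, enc (i a) = ea a) (ho : ∀ a, enc (f (i a)) = eb (g a)) :
    Nonempty (Turing.TM2ComputableInPolyTime ea eb g) := by
  obtain ⟨P, t, ⟨p, hp⟩, h⟩ := hf
  refine polyTime_of_prog ea eb g P p fun a => ?_
  have := h (i a)
  rwa [sz, hi, ho, hp] at this

theorem isPolyTime_list {f : List Bool → List Bool} (hf : PT f) : N68a2faeb.IsPolyTime f :=
  hf.tm2 _ _ f (fun a => a) (fun _ => rfl) fun _ => rfl

theorem isPolyTime_decide {f : List Bool → Bool} (hf : PT f) : N68a2faeb.IsPolyTime f :=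
  hf.tm2 _ _ f (fun a => a) (fun _ => rfl) fun _ => rfl

theorem isPolyTime_verifier {f : List Bool × List Bool → Bool} (hf : PT f) :
    N68a2faeb.IsPolyTime f :=
  hf.tm2 _ _ f (fun a => a) (fun _ => rfl) fun _ => rfl

end PT

end Pool.Agent.Lib.Poly
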