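import Pool.Agent.Lib.Poly.Lib

/-! The binary encoding `Computability.encodeNat` is polynomial-time computable from unary. -/

namespace Pool.Agent.Lib.Poly

open Computability

theorem encodeNat_posNum (p : PosNum) : encodeNat (p : ℕ) = encodePosNum p := by
  unfold encodeNat
  rw [PosNum.of_to_nat]
  rfl

theorem encodeNat_zero : encodeNat 0 = [] := rfl

theorem encodeNat_pos (m : ℕ) (hm : m ≠ 0) :
    encodeNat m = decide (m % 2 = 1) :: encodeNat (m / 2) := by
  obtain ⟨p, rfl⟩ : ∃ p : PosNum, m = (p : ℕ) := by
    have := Num.to_of_nat m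
    cases h : (m : Num) with
    | zero => rw [h] at this; exact absurd this.symm hm
    | pos p => rw [h] at this; exact ⟨p, this.symm⟩
  rw [encodeNat_posNum]
  cases p with
  | one => rfl
  | bit0 q =>
    have e : ((PosNum.bit0 q : PosNum) : ℕ) = q + q := rfl
    rw [e, show ((q : ℕ) + q) / 2 = q by omega, encodeNat_posNum,
      decide_eq_false (by omega)]
    rfl
  | bit1 q =>
    have e : ((PosNum.bit1 q : PosNum) : ℕ) = q + q + 1 := rfl
    rw [e, show ((q : ℕ) + q + 1) / 2 = q by omega, encodeNat_posNum,
      decide_eq_true (by omega)]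
    rfl

def binStep (s : ℕ × List Bool) : ℕ × List Bool :=
  if s.1 = 0 then s else (s.1 / 2, s.2 ++ [decide (s.1 % 2 = 1)])

theorem binStep_iterate (f m : ℕ) (acc : List Bool) (h : m ≤ f) :
    binStep^[f] (m, acc) = (0, acc ++ encodeNat m) := by
  induction f generalizing m acc with
  | zero =>
    have : m = 0 := by omega
    subst this; simp [encodeNat_zero]
  | succ f ih =>
    rw [Function.iterate_succ_apply]
    by_cases hm : m = 0
    · subst hm
      have : binStep (0, acc) = (0, acc) := by simp [binStep]
      rw [this, ih 0 acc (Nat.zero_le _)]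
    · have : binStep (m, acc) = (m / 2, acc ++ [decide (m % 2 = 1)]) := by simp [binStep, hm]
      rw [this, ih _ _ (by omega), encodeNat_pos m hm]
      simp

theorem sz_binStep_iterate (i : ℕ) (s : ℕ × List Bool) : sz (binStep^[i] s) ≤ sz s + 3 * i := by
  induction i with
  | zero => simp
  | succ i ih =>
    rw [Function.iterate_succ_apply']
    have : ∀ t : ℕ × List Bool, sz (binStep t) ≤ sz t + 3 := by
      rintro ⟨m, acc⟩
      unfold binStep
      split_ifs
      · omega
      · simp only [sz_pair, sz_nat, sz_append, sz_cons, sz_bool, sz_nil]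
        omega
    have := this (binStep^[i] s)
    omega

@[fun_prop] theorem PT.encodeNat {α : Type} [Enc α] {f : α → ℕ} (hf : PT f) :
    PT fun x => Computability.encodeNat (f x) := by
  have h1 : PT binStep := by unfold binStep; fun_prop
  have h2 : PT fun n : ℕ => binStep^[n] (n, ([] : List Bool)) :=
    PT.iterate (N := fun n : ℕ => n) (init := fun n : ℕ => (n, ([] : List Bool))) h1
      (by fun_prop) (by fun_prop) (fun n => 5 * n + 1) (by fun_prop) (by
        intro a i hi
        have := sz_binStep_iterate i (a, ([] : List Bool))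
        simp only [sz_pair, sz_nat, sz_nil] at this ⊢
        omega)
  have h3 : PT fun n : ℕ => Computability.encodeNat n :=
    h2.snd.of_eq fun n => by rw [binStep_iterate n n [] le_rfl]; rfl
  exact h3.comp hf

end Pool.Agent.Lib.Poly
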