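import Mathlib
import Pool.Agent.Lib.Poly.Basic

/-!
Closure properties of `PT`, all usable through `fun_prop`.
-/

namespace Pool.Agent.Lib.Poly

namespace PT

variable {α β γ δ : Type} [Enc α] [Enc β] [Enc γ] [Enc δ]

@[fun_prop] theorem toEnc {f : α → β} (hf : PT f) : PT fun x => enc (f x) := encode.comp hf

@[fun_prop] theorem toSz {f : α → β} (hf : PT f) : PT fun x => sz (f x) := szf.comp hf

@[fun_prop] theorem not {f : α → Bool} (hf : PT f) : PT fun x => !f x :=
  (cond hf (const false) (const true)).of_eq fun x => by cases f x <;> rfl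

@[fun_prop] theorem and {f g : α → Bool} (hf : PT f) (hg : PT g) : PT fun x => f x && g x :=
  (cond hf hg (const false)).of_eq fun x => by cases f x <;> rfl

@[fun_prop] theorem or {f g : α → Bool} (hf : PT f) (hg : PT g) : PT fun x => f x || g x :=
  (cond hf (const true) hg).of_eq fun x => by cases f x <;> rfl

@[fun_prop] theorem xor {f g : α → Bool} (hf : PT f) (hg : PT g) : PT fun x => (f x ^^ g x) :=
  (cond hf hg.not hg).of_eq fun x => by cases f x <;> cases g x <;> rfl

@[fun_prop] theorem ite {p : α → Prop} [∀ x, Decidable (p x)] {f g : α → β}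
    (hp : PT fun x => decide (p x)) (hf : PT f) (hg : PT g) :
    PT fun x => if p x then f x else g x :=
  (cond hp hf hg).of_eq fun x => by by_cases h : p x <;> simp [h]

@[fun_prop] theorem isEmpty {f : α → List β} (hf : PT f) : PT fun x => (f x).isEmpty := by
  have : PT fun l : List β => l.isEmpty :=
    rawEmpty.of_enc (fun l => Raw.mk (enc l)) (fun _ => rfl) fun l => by
      cases l with
      | nil => rfl
      | cons a l =>
        rw [enc_cons]
        cases enc a <;> rfl
  exact this.comp hf

@[fun_prop] theorem headD {f : α → List β} {d : α → β} (hf : PT f) (hd : PT d) :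
    PT fun x => (f x).headD (d x) := by
  have h1 : PT fun p : List β × β => bif p.1.isEmpty then (Raw.mk (enc p.2))
      else (Raw.mk ((p.1.head?.map enc).getD [])) :=
    cond (by fun_prop) (comp (f := fun b : β => Raw.mk (enc b)) (cast fun _ => rfl) snd')
      (rawHead.comp fst')
  have h2 : PT fun p : List β × β => p.1.headD p.2 :=
    h1.of_enc (fun a => a) (fun _ => rfl) fun p => by
      obtain ⟨l, d⟩ := p
      cases l <;> rfl
  exact h2.comp (mk hf hd)

theorem units {f : α → ℕ} (hf : PT f) : PT fun x => List.replicate (f x) () :=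
  comp (f := fun n : ℕ => List.replicate n ()) (cast fun n => (enc_units n).symm) hf

theorem ofUnits {f : α → List Unit} (hf : PT f) : PT fun x => (f x).length :=
  comp (f := fun l : List Unit => l.length) (cast fun l => by
    rw [← enc_units]
    congr 1
    exact List.eq_replicate_iff.2 ⟨rfl, fun _ _ => rfl⟩) hf

theorem succ {f : α → ℕ} (hf : PT f) : PT fun x => f x + 1 :=
  (ofUnits (cons (const ()) (units hf))).of_eq fun x => by simp

theorem pred {f : α → ℕ} (hf : PT f) : PT fun x => f x - 1 :=
  (ofUnits (tail (units hf))).of_eq fun x => by simp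

theorem isZero {f : α → ℕ} (hf : PT f) : PT fun x => decide (f x = 0) :=
  (isEmpty (units hf)).of_eq fun x => by cases f x <;> simp [List.replicate_succ]

theorem sz_drop_le (l : List β) (i : ℕ) : sz (l.drop i) ≤ sz l := by
  conv_rhs => rw [← List.take_append_drop i l]
  rw [sz_append]; omega

theorem sz_take_le (l : List β) (i : ℕ) : sz (l.take i) ≤ sz l := by
  conv_rhs => rw [← List.take_append_drop i l]
  rw [sz_append]; omega

/-- Left fold with a polynomial bound on the accumulator along the run. -/
theorem foldl_inv {f : α → γ → β → γ} {init : α → γ} {l : α → List β}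
    (hf : PT fun p : α × γ × β => f p.1 p.2.1 p.2.2) (hi : PT init) (hl : PT l)
    (b : ℕ → ℕ) (hb : IsPoly b)
    (h : ∀ a i, sz (((l a).take i).foldl (f a) (init a)) ≤ b (sz a)) :
    PT fun a => (l a).foldl (f a) (init a) := by
  by_cases hne : Nonempty β
  swap
  · refine hi.of_eq fun a => ?_
    cases e : l a with
    | nil => rfl
    | cons x _ => exact absurd ⟨x⟩ hne
  obtain ⟨d⟩ := hne
  obtain ⟨s, hs, hs'⟩ := hl.size
  let step : α × γ × List β → α × γ × List β := fun p =>
    bif p.2.2.isEmpty then p else (p.1, f p.1 p.2.1 (p.2.2.headD d), p.2.2.tail)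
  have hstep : PT step := by
    have : PT fun p : α × γ × List β => f p.1 p.2.1 (p.2.2.headD d) :=
      hf.comp (g := fun p : α × γ × List β => (p.1, p.2.1, p.2.2.headD d)) (by fun_prop)
    exact cond (by fun_prop) id (mk fst' (mk this (by fun_prop)))
  have key : ∀ (i : ℕ) a c l', step^[i] (a, c, l') = (a, (l'.take i).foldl (f a) c, l'.drop i) := by
    intro i
    induction i with
    | zero => intro a c l'; rfl
    | succ i ih =>
      intro a c l'
      rw [Function.iterate_succ_apply]
      cases l' with
      | nil => exact (ih a c []).trans (by simp)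
      | cons x l' => exact ih a (f a c x) l'
  have h2 := iterate (α := α) (N := fun a => sz (l a)) (init := fun a => (a, init a, l a)) hstep
    (by fun_prop) (by fun_prop) (fun n => 2 * n + 1 + (2 * b n + 1 + s n)) (by fun_prop) (by
      intro a i _
      rw [key]
      have := h a i
      have := sz_drop_le (l a) i
      have := hs' a
      simp only [sz_pair]
      omega)
  refine (h2.snd.fst).of_eq fun a => ?_
  rw [key, List.take_of_length_le (length_le_sz _)]

/-- Left fold whose accumulator grows additively. -/
theorem foldl {f : α → γ → β → γ} {init : α → γ} {l : α → List β}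
    (hf : PT fun p : α × γ × β => f p.1 p.2.1 p.2.2) (hi : PT init) (hl : PT l)
    (t : ℕ → ℕ) (ht : IsPoly t) (h : ∀ a c x, sz (f a c x) ≤ sz c + t (sz a + sz x)) :
    PT fun a => (l a).foldl (f a) (init a) := by
  obtain ⟨s, hs, hs'⟩ := hl.size
  obtain ⟨u, hu, hu'⟩ := hi.size
  refine foldl_inv hf hi hl (fun n => u n + s n * t (n + s n)) (by fun_prop) fun a i => ?_
  have key : ∀ (l' : List β) c, sz l' ≤ s (sz a) →
      sz (l'.foldl (f a) c) ≤ sz c + l'.length * t (sz a + s (sz a)) := by
    intro l'
    induction l' with
    | nil => intro c _; simp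
    | cons x l' ih =>
      intro c hc
      rw [sz_cons] at hc
      have h1 := ih (f a c x) (by omega)
      have h2 := h a c x
      have h3 : t (sz a + sz x) ≤ t (sz a + s (sz a)) := ht.mono (by omega)
      rw [List.foldl_cons, List.length_cons, Nat.succ_mul]
      omega
  have h0 := (sz_take_le (l a) i).trans (hs' a)
  have h1 := key _ (init a) h0
  have h2 := Nat.mul_le_mul_right (t (sz a + s (sz a))) ((length_le_sz _).trans h0)
  have := hu' a
  omega

theorem foldl_cons' (l s : List β) : l.foldl (fun s x => x :: s) s = l.reverse ++ s := by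
  induction l generalizing s with
  | nil => rfl
  | cons a l ih => simp [ih]

theorem revAppend {f g : α → List β} (hf : PT f) (hg : PT g) :
    PT fun x => (f x).reverse ++ g x :=
  (foldl (f := fun _ s x => x :: s) (by fun_prop) hg hf (fun n => 2 * n + 1) (by fun_prop)
    (fun a c x => by simp; omega)).of_eq fun _ => foldl_cons' _ _

@[fun_prop] theorem reverse {f : α → List β} (hf : PT f) : PT fun x => (f x).reverse :=
  (revAppend hf (const [])).of_eq fun _ => by simp

@[fun_prop] theorem append {f g : α → List β} (hf : PT f) (hg : PT g) :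
    PT fun x => f x ++ g x :=
  (revAppend hf.reverse hg).of_eq fun _ => by simp

@[fun_prop] theorem flatMap {f : α → β → List γ} {l : α → List β}
    (hf : PT fun p : α × β => f p.1 p.2) (hl : PT l) : PT fun x => (l x).flatMap (f x) := by
  obtain ⟨s, hs, hs'⟩ := hf.size
  refine (foldl (f := fun a s x => s ++ f a x) (init := fun _ => []) (by fun_prop) (by fun_prop) hl
    (fun n => s (2 * n + 1)) (by fun_prop) (fun a c x => ?_)).of_eq fun a => ?_
  · have := (hs' (a, x)).trans (hs.mono (n := 2 * (sz a + sz x) + 1) (by simp; omega))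
    simpa using this
  · rw [List.flatMap_eq_foldl]

@[fun_prop] theorem map {f : α → β → γ} {l : α → List β}
    (hf : PT fun p : α × β => f p.1 p.2) (hl : PT l) : PT fun x => (l x).map (f x) :=
  (flatMap (f := fun a x => [f a x]) (by fun_prop) hl).of_eq fun _ => by
    rw [List.map_eq_flatMap]

@[fun_prop] theorem flatten {l : α → List (List β)} (hl : PT l) : PT fun x => (l x).flatten :=
  (flatMap (f := fun _ x => x) (by fun_prop) hl).of_eq fun _ => by simp [List.flatMap_id']

@[fun_prop] theorem filter {f : α → β → Bool} {l : α → List β}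
    (hf : PT fun p : α × β => f p.1 p.2) (hl : PT l) : PT fun x => (l x).filter (f x) :=
  (flatMap (f := fun a x => bif f a x then [x] else []) (by fun_prop) hl).of_eq fun a => by
    induction l a with
    | nil => rfl
    | cons x l ih => cases h : f a x <;> simp [List.filter_cons, h, ← ih]

@[fun_prop] theorem length {l : α → List β} (hl : PT l) : PT fun x => (l x).length :=
  (ofUnits (map (f := fun _ _ => ()) (by fun_prop) hl)).of_eq fun _ => by simp

@[fun_prop] theorem replicate {n : α → ℕ} {f : α → β} (hn : PT n) (hf : PT f) :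
    PT fun x => List.replicate (n x) (f x) :=
  (map (f := fun a _ => f a) (by fun_prop) (units hn)).of_eq fun _ => by simp

@[fun_prop] theorem add {f g : α → ℕ} (hf : PT f) (hg : PT g) : PT fun x => f x + g x :=
  (ofUnits (append (units hf) (units hg))).of_eq fun _ => by simp

@[fun_prop] theorem mul {f g : α → ℕ} (hf : PT f) (hg : PT g) : PT fun x => f x * g x :=
  (ofUnits (flatMap (f := fun a _ => List.replicate (g a) ()) (by fun_prop) (units hf))).of_eq
    fun _ => by simp [List.length_flatMap]

@[fun_prop] theorem pow {f : α → ℕ} (hf : PT f) (k : ℕ) : PT fun x => f x ^ k := by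
  induction k with
  | zero => exact (const 1).of_eq fun _ => by simp
  | succ k ih => exact (mul ih hf).of_eq fun _ => by rw [pow_succ]

theorem isPoly {t : ℕ → ℕ} (ht : IsPoly t) : PT t := by
  obtain ⟨p, hp⟩ := ht
  refine of_eq (f := fun n => p.eval n) ?_ fun n => (hp n).symm
  clear hp
  induction p using Polynomial.induction_on' with
  | add p q hp hq => exact (add hp hq).of_eq fun _ => by simp
  | monomial k a =>
    exact of_eq (f := fun n : ℕ => a * n ^ k) (by fun_prop) fun _ => by simp

@[fun_prop] theorem polyEval (p : Polynomial ℕ) {f : α → ℕ} (hf : PT f) :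
    PT fun x => p.eval (f x) :=
  (isPoly (IsPoly.eval p)).comp hf

@[fun_prop] theorem sum {l : α → List ℕ} (hl : PT l) : PT fun x => (l x).sum :=
  (ofUnits (flatMap (f := fun _ n => List.replicate n ()) (by fun_prop) hl)).of_eq
    fun _ => by simp [List.length_flatMap]

@[fun_prop] theorem drop {n : α → ℕ} {l : α → List β} (hn : PT n) (hl : PT l) :
    PT fun x => (l x).drop (n x) := by
  refine (foldl (f := fun _ (s : List β) (_ : Unit) => s.tail) (by fun_prop) hl (units hn)
    (fun _ => 0) (by fun_prop) (fun a c x => ?_)).of_eq fun a => ?_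
  · simpa using sz_drop_le c 1
  · generalize l a = l'
    induction n a generalizing l' with
    | zero => rfl
    | succ n ih => rw [List.replicate_succ, List.foldl_cons, ih]; simp

@[fun_prop] theorem sub {f g : α → ℕ} (hf : PT f) (hg : PT g) : PT fun x => f x - g x :=
  (ofUnits (drop hg (units hf))).of_eq fun _ => by simp

@[fun_prop] theorem take {n : α → ℕ} {l : α → List β} (hn : PT n) (hl : PT l) :
    PT fun x => (l x).take (n x) :=
  (reverse (drop (n := fun x => (l x).length - n x) (by fun_prop) hl.reverse)).of_eq fun a => by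
    rw [List.drop_reverse, List.reverse_reverse]
    by_cases h : n a ≤ (l a).length
    · congr 1; omega
    · rw [List.take_of_length_le (by omega), List.take_of_length_le (by omega)]

@[fun_prop] theorem getD {l : α → List β} {n : α → ℕ} {d : α → β} (hl : PT l) (hn : PT n)
    (hd : PT d) : PT fun x => (l x).getD (n x) (d x) :=
  (headD (drop hn hl) hd).of_eq fun a => by
    rw [List.headD_eq_head?_getD, List.head?_drop, List.getD_eq_getElem?_getD]

@[fun_prop] theorem dle {f g : α → ℕ} [∀ x, Decidable (f x ≤ g x)] (hf : PT f) (hg : PT g) :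
    PT fun x => decide (f x ≤ g x) :=
  (isZero (sub hf hg)).of_eq fun _ => by simp [Nat.sub_eq_zero_iff_le]

@[fun_prop] theorem dlt {f g : α → ℕ} [∀ x, Decidable (f x < g x)] (hf : PT f) (hg : PT g) :
    PT fun x => decide (f x < g x) :=
  (dle (succ hf) hg).of_eq fun _ => by simp [Nat.succ_le_iff]

@[fun_prop] theorem min {f g : α → ℕ} (hf : PT f) (hg : PT g) : PT fun x => min (f x) (g x) :=
  of_eq (f := fun x => if f x ≤ g x then f x else g x) (by fun_prop) fun _ => by
    rw [min_def]

@[fun_prop] theorem max {f g : α → ℕ} (hf : PT f) (hg : PT g) : PT fun x => max (f x) (g x) :=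
  of_eq (f := fun x => if f x ≤ g x then g x else f x) (by fun_prop) fun _ => by
    rw [max_def]

@[fun_prop] theorem all {f : α → β → Bool} {l : α → List β}
    (hf : PT fun p : α × β => f p.1 p.2) (hl : PT l) : PT fun x => (l x).all (f x) :=
  (isEmpty (filter (f := fun a x => !f a x) (by fun_prop) hl)).of_eq fun a => by
    rw [Bool.eq_iff_iff]; simp

@[fun_prop] theorem any {f : α → β → Bool} {l : α → List β}
    (hf : PT fun p : α × β => f p.1 p.2) (hl : PT l) : PT fun x => (l x).any (f x) :=
  (not (isEmpty (filter hf hl))).of_eq fun a => by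
    rw [Bool.eq_iff_iff]; simp

@[fun_prop] theorem countP {f : α → β → Bool} {l : α → List β}
    (hf : PT fun p : α × β => f p.1 p.2) (hl : PT l) : PT fun x => (l x).countP (f x) :=
  (length (filter hf hl)).of_eq fun a => by rw [List.countP_eq_length_filter]

@[fun_prop] theorem range {n : α → ℕ} (hn : PT n) : PT fun x => List.range (n x) := by
  have key : ∀ (k j : ℕ), (List.replicate k ()).foldl (fun (s : List ℕ) _ => s ++ [s.length])
      (List.range j) = List.range (j + k) := by
    intro k
    induction k with
    | zero => intro j; rfl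
    | succ k ih =>
      intro j
      rw [List.replicate_succ, List.foldl_cons, List.length_range, ← List.range_succ, ih]
      congr 1
      omega
  have szr : ∀ k, sz (List.range k) ≤ k * (2 * k + 1) := by
    intro k
    induction k with
    | zero => simp
    | succ k ih => rw [List.range_succ]; simp; nlinarith
  obtain ⟨s, hs, hs'⟩ := hn.size
  refine (foldl_inv (f := fun _ (s : List ℕ) (_ : Unit) => s ++ [s.length])
    (init := fun _ => List.range 0) (by fun_prop) (by fun_prop) (units hn)
    (fun m => s m * (2 * s m + 1)) (by fun_prop) (fun a i => ?_)).of_eq fun a => ?_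
  · rw [List.take_replicate, key]
    have h1 := hs' a
    rw [sz_nat] at h1
    have h2 : 0 + Min.min i (n a) ≤ s (sz a) := by omega
    exact (szr _).trans (Nat.mul_le_mul h2 (by omega))
  · rw [key, Nat.zero_add]

theorem beqList {f g : α → List Bool} (hf : PT f) (hg : PT g) :
    PT fun x => decide (f x = g x) := by
  refine of_eq (f := fun x => decide ((f x).length ≤ (g x).length) &&
    decide ((g x).length ≤ (f x).length) &&
    (List.range (f x).length).all fun i => !((f x).getD i false ^^ (g x).getD i false))
    (by fun_prop) fun a => ?_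
  rw [Bool.eq_iff_iff]
  simp only [Bool.and_eq_true, decide_eq_true_eq, List.all_eq_true, List.mem_range]
  constructor
  · rintro ⟨⟨h1, h2⟩, h3⟩
    refine List.ext_getElem (by omega) fun i a1 a2 => ?_
    have := h3 i a1
    rw [List.getD_eq_getElem _ _ a1, List.getD_eq_getElem _ _ a2] at this
    revert this
    cases (f a)[i] <;> cases (g a)[i] <;> simp
  · intro h
    rw [h]
    simp

@[fun_prop] theorem deq {f g : α → β} [∀ x, Decidable (f x = g x)] (hf : PT f) (hg : PT g) :
    PT fun x => decide (f x = g x) :=
  (beqList hf.toEnc hg.toEnc).of_eq fun _ => by simp [Enc.inj.eq_iff]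

@[fun_prop] theorem beq [BEq β] [LawfulBEq β] {f g : α → β} (hf : PT f) (hg : PT g) :
    PT fun x => f x == g x := by
  classical
  exact (deq hf hg).of_eq fun a => by rw [Bool.eq_iff_iff]; simp

@[fun_prop] theorem bne [BEq β] [LawfulBEq β] {f g : α → β} (hf : PT f) (hg : PT g) :
    PT fun x => f x != g x :=
  (beq hf hg).not

@[fun_prop] theorem dnot {p : α → Prop} [∀ x, Decidable (p x)] [∀ x, Decidable (¬ p x)]
    (hp : PT fun x => decide (p x)) : PT fun x => decide (¬ p x) :=
  hp.not.of_eq fun _ => by simp

@[fun_prop] theorem dne {f g : α → β} [∀ x, Decidable (f x ≠ g x)] (hf : PT f) (hg : PT g) :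
    PT fun x => decide (f x ≠ g x) := by
  classical
  exact (deq hf hg).not.of_eq fun _ => by simp

@[fun_prop] theorem dand {p q : α → Prop} [∀ x, Decidable (p x)] [∀ x, Decidable (q x)]
    [∀ x, Decidable (p x ∧ q x)] (hp : PT fun x => decide (p x))
    (hq : PT fun x => decide (q x)) : PT fun x => decide (p x ∧ q x) :=
  (hp.and hq).of_eq fun _ => by simp

@[fun_prop] theorem dor {p q : α → Prop} [∀ x, Decidable (p x)] [∀ x, Decidable (q x)]
    [∀ x, Decidable (p x ∨ q x)] (hp : PT fun x => decide (p x))
    (hq : PT fun x => decide (q x)) : PT fun x => decide (p x ∨ q x) :=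
  (hp.or hq).of_eq fun _ => by simp

@[fun_prop] theorem dimp {p q : α → Prop} [∀ x, Decidable (p x)] [∀ x, Decidable (q x)]
    [∀ x, Decidable (p x → q x)] (hp : PT fun x => decide (p x))
    (hq : PT fun x => decide (q x)) : PT fun x => decide (p x → q x) :=
  (hp.not.or hq).of_eq fun a => by by_cases h : p a <;> simp [h]

@[fun_prop] theorem dmem {f : α → β} {l : α → List β} [∀ x, Decidable (f x ∈ l x)]
    (hf : PT f) (hl : PT l) : PT fun x => decide (f x ∈ l x) := by
  classical
  exact (any (f := fun a y => decide (f a = y)) (by fun_prop) hl).of_eq fun _ => by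
    rw [Bool.eq_iff_iff]; simp

@[fun_prop] theorem contains [BEq β] [LawfulBEq β] {f : α → β} {l : α → List β}
    (hl : PT l) (hf : PT f) : PT fun x => (l x).contains (f x) := by
  classical
  exact (dmem hf hl).of_eq fun _ => by rw [Bool.eq_iff_iff]; simp

@[fun_prop] theorem div {f g : α → ℕ} (hf : PT f) (hg : PT g) : PT fun x => f x / g x := by
  refine of_eq (f := fun x => if g x = 0 then 0 else
    ((List.range (f x)).filter fun i => decide ((i + 1) * g x ≤ f x)).length) (by fun_prop)
    fun a => ?_
  by_cases h : g a = 0
  · simp [h]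
  · rw [if_neg h]
    have e : (List.range (f a)).filter (fun i => decide ((i + 1) * g a ≤ f a)) =
        (List.range (f a)).filter (fun i => decide (i < f a / g a)) := by
      refine List.filter_congr fun i _ => ?_
      rw [decide_eq_decide, ← Nat.le_div_iff_mul_le (Nat.pos_of_ne_zero h)]
      rfl
    have h1 : f a / g a ≤ f a := Nat.div_le_self _ _
    obtain ⟨r, hr⟩ := Nat.exists_eq_add_of_le h1
    rw [e]
    generalize f a / g a = q at hr
    rw [hr, List.range_add, List.filter_append, List.filter_eq_self.2 (by simp),
      List.filter_eq_nil_iff.2 (by simp)]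
    simp

@[fun_prop] theorem mod {f g : α → ℕ} (hf : PT f) (hg : PT g) : PT fun x => f x % g x :=
  of_eq (f := fun x => f x - g x * (f x / g x)) (by fun_prop) fun _ => by rw [Nat.mod_def]

@[fun_prop] theorem natPair {f g : α → ℕ} (hf : PT f) (hg : PT g) :
    PT fun x => Nat.pair (f x) (g x) := by
  unfold Nat.pair
  fun_prop

@[fun_prop] theorem toNat {f : α → Bool} (hf : PT f) : PT fun x => (f x).toNat :=
  (cond hf (const 1) (const 0)).of_eq fun x => by cases f x <;> rfl

@[fun_prop] theorem zip {f : α → List β} {g : α → List γ} (hf : PT f) (hg : PT g) :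
    PT fun x => (f x).zip (g x) := by
  by_cases hne : Nonempty (β × γ)
  · obtain ⟨d, e⟩ := hne
    refine of_eq (f := fun x => (List.range (Min.min (f x).length (g x).length)).map
      fun i => ((f x).getD i d, (g x).getD i e)) (by fun_prop) fun a => ?_
    refine List.ext_getElem (by simp) fun i h1 h2 => ?_
    simp only [List.length_zip, lt_min_iff] at h2
    simp [h2.1, h2.2]
  · refine (const []).of_eq fun a => ?_
    cases e : (f a).zip (g a) with
    | nil => rfl
    | cons x _ => exact absurd ⟨x⟩ hne

/-- A list of bits as a raw string. -/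
theorem toRaw {f : α → List Bool} (hf : PT f) : PT fun x => Raw.mk (f x) := by
  refine (foldl (f := fun _ (s : Raw) (b : Bool) => Raw.mk (b :: s.bits))
    (init := fun _ => Raw.mk []) (rawCons.comp (g := fun p : α × Raw × Bool => (p.2.2, p.2.1))
      (by fun_prop)) (by fun_prop) hf.reverse (fun _ => 1) (by fun_prop)
    (fun a c x => le_rfl)).of_eq fun a => ?_
  rw [List.foldl_reverse]
  induction f a with
  | nil => rfl
  | cons b l ih => rw [List.foldr_cons, ih]

/-- Any function on a finite type. -/
theorem of_finite [Finite β] (F : β → γ) : PT F := by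
  classical
  have key : ∀ (l : List β) (d : β → γ), PT d → (∀ x, x ∉ l → d x = F x) → PT F := by
    intro l
    induction l with
    | nil => intro d hd h; exact hd.of_eq fun x => h x List.not_mem_nil
    | cons b l ih =>
      intro d hd h
      refine ih (fun x => if x = b then F b else d x) (by fun_prop) fun x hx => ?_
      by_cases e : x = b
      · simp [e]
      · simp only [e, if_false]
        exact h x (by simp [e, hx])
  by_cases hne : Nonempty β
  · obtain ⟨b⟩ := hne
    have := Fintype.ofFinite β
    exact key Finset.univ.toList (fun _ => F b) (const _) (by simp)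
  · exact ⟨skip, fun _ => 1, by fun_prop, fun x => absurd ⟨x⟩ hne⟩

end PT

end Pool.Agent.Lib.Poly
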