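import Mathlib
import Pool.Prelude.Def_F_458e953d
import Pool.Agent.Lib.Poly.Lib
import Pool.Agent.Lib.Cx.CookLevinPure

/-!
The Cook-Levin theorem for the class `NP` of the prelude, and tools for completeness proofs.
-/

namespace Pool.Agent.Lib.Poly

open Pool.Agent.Lib.Cx Pool.Agent.Lib.Cx.Tab

variable {α : Type} [Enc α]

@[fun_prop] theorem pt_var {f g h : α → ℕ} (hf : PT f) (hg : PT g) (hh : PT h) :
    PT fun x => var (f x) (g x) (h x) := by
  unfold var; fun_prop

@[fun_prop] theorem pt_imp2 {f g h : α → ℕ} (hf : PT f) (hg : PT g) (hh : PT h) :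
    PT fun x => imp2 (f x) (g x) (h x) := by
  unfold imp2; fun_prop

@[fun_prop] theorem pt_impn {f g h : α → ℕ} (hf : PT f) (hg : PT g) (hh : PT h) :
    PT fun x => impn (f x) (g x) (h x) := by
  unfold impn; fun_prop

@[fun_prop] theorem pt_imp1 {f g : α → ℕ} (hf : PT f) (hg : PT g) :
    PT fun x => imp1 (f x) (g x) := by
  unfold imp1; fun_prop

@[fun_prop] theorem pt_or2 {f g : α → ℕ} (hf : PT f) (hg : PT g) :
    PT fun x => or2 (f x) (g x) := by
  unfold or2; fun_prop

@[fun_prop] theorem pt_unit {f : α → ℕ} {g : α → Bool} (hf : PT f) (hg : PT g) :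
    PT fun x => Tab.unit (f x) (g x) := by
  unfold Tab.unit; fun_prop

@[fun_prop] theorem pt_transCl {f g : α → ℕ} {r : α → (ℕ × ℕ × ℕ × ℕ) × ℕ × ℕ × ℕ} (hf : PT f)
    (hg : PT g) (hr : PT r) : PT fun x => transCl (f x) (g x) (r x) := by
  unfold transCl; fun_prop

@[fun_prop] theorem pt_initCl (cN cT cF : ℕ) {pre : α → List Bool} {i : α → ℕ} (hp : PT pre)
    (hi : PT i) : PT fun x => initCl cN cT cF (pre x) (i x) := by
  unfold initCl; fun_prop

theorem pt_form (tr : List ((ℕ × ℕ × ℕ × ℕ) × ℕ × ℕ × ℕ)) (others : List ℕ)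
    (s0 sR cN cT cF : ℕ) {pre : α → List Bool} {P T : α → ℕ} (hp : PT pre) (hP : PT P)
    (hT : PT T) : PT fun x => form tr others s0 sR cN cT cF (pre x) (P x) (T x) := by
  unfold form; fun_prop

/-- **Cook-Levin**: every language in `NP` reduces in polynomial time to the satisfiability of
formulas whose clauses have exactly three literals (repetitions allowed). -/
theorem cook_levin (L : N68a2faeb.DecisionProblem) (hL : L ∈ N68a2faeb.NP) :
    ∃ φ : List Bool → List (List (ℕ × Bool)), PT φ ∧ (∀ x, ∀ c ∈ φ x, c.length = 3) ∧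
      ∀ x, L x = true ↔ ∃ a : ℕ → Bool, ∀ c ∈ φ x, ∃ l ∈ c, a l.1 = l.2 := by
  obtain ⟨tr, others, s0, sR, cN, cT, cF, p, q, h⟩ := cook_levin_pure L hL
  refine ⟨_, pt_form tr others s0 sR cN cT cF (pre := preOf) (P := fun x => p.eval x.length)
    (T := fun x => q.eval x.length) ?_ (by fun_prop) (by fun_prop),
    fun x => form_length _ _ _ _ _ _ _ _ _ _, h⟩
  unfold preOf; fun_prop

/-- Hardness from a reduction of 3-CNF satisfiability. -/
theorem np_hard_of_red (L : N68a2faeb.DecisionProblem) (f : List (List (ℕ × Bool)) → List Bool)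
    (hf : PT f) (h : ∀ φ : List (List (ℕ × Bool)), (∀ c ∈ φ, c.length = 3) →
      (L (f φ) = true ↔ ∃ a : ℕ → Bool, ∀ c ∈ φ, ∃ l ∈ c, a l.1 = l.2)) :
    ∀ L' ∈ N68a2faeb.NP, N793a5b8e.ManyOneReducible L' L := by
  intro L' hL'
  obtain ⟨φ, h1, h2, h3⟩ := cook_levin L' hL'
  refine ⟨fun x => f (φ x), (hf.comp h1).isPolyTime_list, fun x => ?_⟩
  rw [Bool.eq_iff_iff, h3, h _ (h2 x)]

/-- Membership in `NP` from a polynomial-time verifier. -/
theorem mem_np (L : N68a2faeb.DecisionProblem) (R : List Bool × List Bool → Bool) (hR : PT R)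
    (t : ℕ → ℕ) (ht : IsPoly t)
    (h : ∀ x, L x = true ↔ ∃ w : List Bool, w.length ≤ t x.length ∧ R (x, w) = true) :
    L ∈ N68a2faeb.NP := by
  obtain ⟨p, hp⟩ := ht
  exact ⟨p, R, hR.isPolyTime_verifier, fun x => by rw [h, hp]⟩

/-- Membership in `P`. -/
theorem mem_p (L : N68a2faeb.DecisionProblem) (hL : PT (α := List Bool) (β := Bool) L) :
    L ∈ N68a2faeb.P :=
  hL.isPolyTime_decide

end Pool.Agent.Lib.Poly
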