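import Pool.Agent.Lib.Poly.Arith

-- merged part: Pool.Agent.Lib.Poly.RatArith
section
/-!
Binary arithmetic in `PT`: integers and rationals, with the encodings of the prelude.
-/

namespace Pool.Agent.Lib.Poly

open Computability

instance encInt : Enc ℤ := ⟨N487b59b3.bitEncode, N487b59b3.bitEncode_injective⟩

instance encRat : Enc ℚ := ⟨N487b59b3.bitEncode, N487b59b3.bitEncode_injective⟩

theorem enc_int (n : ℤ) : enc n = enc (Bin.mk n.toNat, Bin.mk (-n).toNat) := rfl

theorem enc_rat (q : ℚ) : enc q = enc (q.num, Bin.mk q.den) := rfl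

variable {α β : Type} [Enc α] [Enc β]

def ipos (n : ℤ) : Bin := ⟨n.toNat⟩
def ineg (n : ℤ) : Bin := ⟨(-n).toNat⟩
def idiff (a b : Bin) : ℤ := (a.val : ℤ) - b.val

theorem PT.iparts : PT fun n : ℤ => (ipos n, ineg n) := PT.cast fun _ => rfl

@[fun_prop] theorem PT.ipos {f : α → ℤ} (hf : PT f) : PT fun x => ipos (f x) :=
  (PT.iparts.comp hf).fst

@[fun_prop] theorem PT.ineg {f : α → ℤ} (hf : PT f) : PT fun x => ineg (f x) :=
  (PT.iparts.comp hf).snd

@[fun_prop] theorem PT.idiff {f g : α → Bin} (hf : PT f) (hg : PT g) :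
    PT fun x => idiff (f x) (g x) := by
  have h : PT fun x => ((f x).sub (g x), (g x).sub (f x)) := by fun_prop
  refine h.of_enc (fun x => x) (fun _ => rfl) fun x => ?_
  rw [enc_int]
  unfold Poly.idiff Bin.sub
  congr 3 <;> omega

@[fun_prop] theorem PT.iadd {f g : α → ℤ} (hf : PT f) (hg : PT g) : PT fun x => f x + g x :=
  PT.of_eq (f := fun x => Poly.idiff ((Poly.ipos (f x)).add (Poly.ipos (g x)))
    ((Poly.ineg (f x)).add (Poly.ineg (g x)))) (by fun_prop) fun x => by
    simp only [Poly.idiff, Poly.ipos, Poly.ineg, Bin.add]; omega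

@[fun_prop] theorem PT.inegate {f : α → ℤ} (hf : PT f) : PT fun x => -f x :=
  PT.of_eq (f := fun x => Poly.idiff (Poly.ineg (f x)) (Poly.ipos (f x))) (by fun_prop) fun x => by
    simp only [Poly.idiff, Poly.ipos, Poly.ineg]; omega

@[fun_prop] theorem PT.imul {f g : α → ℤ} (hf : PT f) (hg : PT g) : PT fun x => f x * g x :=
  PT.of_eq (f := fun x => Poly.idiff
    (((Poly.ipos (f x)).mul (Poly.ipos (g x))).add ((Poly.ineg (f x)).mul (Poly.ineg (g x))))
    (((Poly.ipos (f x)).mul (Poly.ineg (g x))).add ((Poly.ineg (f x)).mul (Poly.ipos (g x)))))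
    (by fun_prop) fun x => by
    simp only [Poly.idiff, Poly.ipos, Poly.ineg, Bin.add, Bin.mul]
    have h1 := Int.toNat_sub_toNat_neg (f x)
    have h2 := Int.toNat_sub_toNat_neg (g x)
    push_cast
    conv_rhs => rw [← h1, ← h2]
    ring

@[fun_prop] theorem PT.ilt {f g : α → ℤ} [∀ x, Decidable (f x < g x)] (hf : PT f) (hg : PT g) :
    PT fun x => decide (f x < g x) :=
  PT.of_eq (f := fun x => ((Poly.ipos (f x)).add (Poly.ineg (g x))).lt
    ((Poly.ipos (g x)).add (Poly.ineg (f x)))) (by fun_prop) fun x => by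
    simp only [Poly.ipos, Poly.ineg, Bin.add, Bin.lt, decide_eq_decide]; omega

def iabs (n : ℤ) : Bin := ⟨n.natAbs⟩
def bint (b : Bin) : ℤ := b.val

@[fun_prop] theorem PT.iabs {f : α → ℤ} (hf : PT f) : PT fun x => iabs (f x) :=
  PT.of_eq (f := fun x => (Poly.ipos (f x)).add (Poly.ineg (f x))) (by fun_prop) fun x => by
    simp only [Poly.ipos, Poly.ineg, Bin.add, Poly.iabs]; congr 1; omega

@[fun_prop] theorem PT.bint {f : α → Bin} (hf : PT f) : PT fun x => bint (f x) :=
  PT.of_eq (f := fun x => Poly.idiff (f x) ⟨0⟩) (by fun_prop) fun x => by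
    simp [Poly.idiff, Poly.bint]

theorem PT.qparts : PT fun q : ℚ => (q.num, Bin.mk q.den) := PT.cast fun _ => rfl

def qden (q : ℚ) : Bin := ⟨q.den⟩

@[fun_prop] theorem PT.qnum {f : α → ℚ} (hf : PT f) : PT fun x => (f x).num :=
  (PT.qparts.comp hf).fst

@[fun_prop] theorem PT.qden {f : α → ℚ} (hf : PT f) : PT fun x => qden (f x) :=
  (PT.qparts.comp hf).snd

def qmk (n : ℤ) (d : Bin) : ℚ := mkRat n d.val

@[fun_prop] theorem PT.qmk {f : α → ℤ} {g : α → Bin} (hf : PT f) (hg : PT g) :
    PT fun x => qmk (f x) (g x) := by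
  have h : PT fun x => if g x = ⟨0⟩ then ((0 : ℤ), Bin.mk 1) else
      (Poly.idiff ((Poly.ipos (f x)).div ((g x).gcd (Poly.iabs (f x))))
        ((Poly.ineg (f x)).div ((g x).gcd (Poly.iabs (f x)))),
        (g x).div ((g x).gcd (Poly.iabs (f x)))) := by fun_prop
  refine h.of_enc (fun x => x) (fun _ => rfl) fun x => ?_
  rw [enc_rat]
  congr 1
  obtain ⟨d⟩ := g x
  generalize f x = n
  unfold Poly.qmk
  rw [Rat.num_mkRat, Rat.den_mkRat]
  by_cases hd : d = 0
  · simp [hd]
  · rw [if_neg (by simpa using hd), if_neg hd, if_neg hd]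
    simp only [Poly.idiff, Poly.ipos, Poly.ineg, Poly.iabs, Bin.div, Bin.gcd]
    congr 1
    have hdvd : d.gcd n.natAbs ∣ n.natAbs := Nat.gcd_dvd_right _ _
    generalize d.gcd n.natAbs = e at hdvd
    rcases Int.eq_nat_or_neg n with ⟨k, rfl | rfl⟩
    · simp
    · simp only [Int.natAbs_neg, Int.natAbs_natCast] at hdvd
      rw [Int.neg_ediv_of_dvd (by exact_mod_cast hdvd)]
      simp

@[fun_prop] theorem PT.qadd {f g : α → ℚ} (hf : PT f) (hg : PT g) : PT fun x => f x + g x :=
  PT.of_eq (f := fun x => Poly.qmk ((f x).num * Poly.bint (Poly.qden (g x)) +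
    (g x).num * Poly.bint (Poly.qden (f x))) ((Poly.qden (f x)).mul (Poly.qden (g x))))
    (by fun_prop) fun x => by rw [Rat.add_def']; rfl

@[fun_prop] theorem PT.qmul {f g : α → ℚ} (hf : PT f) (hg : PT g) : PT fun x => f x * g x :=
  PT.of_eq (f := fun x => Poly.qmk ((f x).num * (g x).num)
    ((Poly.qden (f x)).mul (Poly.qden (g x)))) (by fun_prop) fun x => by rw [Rat.mul_def']; rfl

@[fun_prop] theorem PT.qneg {f : α → ℚ} (hf : PT f) : PT fun x => -f x :=
  PT.of_eq (f := fun x => (-1) * f x) (by fun_prop) fun x => by ring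

@[fun_prop] theorem PT.qsub {f g : α → ℚ} (hf : PT f) (hg : PT g) : PT fun x => f x - g x :=
  PT.of_eq (f := fun x => f x + -g x) (by fun_prop) fun x => by ring

@[fun_prop] theorem PT.qinv {f : α → ℚ} (hf : PT f) : PT fun x => (f x)⁻¹ :=
  PT.of_eq (f := fun x => Poly.qmk (if (f x).num < 0 then -Poly.bint (Poly.qden (f x))
    else Poly.bint (Poly.qden (f x))) (Poly.iabs (f x).num)) (by fun_prop) fun x => by
    generalize f x = q
    unfold Poly.qmk Poly.bint Poly.qden Poly.iabs
    rw [Rat.mkRat_eq_div]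
    conv_rhs => rw [← Rat.num_div_den q, inv_div]
    split_ifs with h
    · have : ((q.num.natAbs : ℕ) : ℚ) = -(q.num : ℚ) := by
        rw [← Int.cast_natCast, Int.natCast_natAbs, abs_of_neg h]; simp
      rw [this]; push_cast; rw [neg_div_neg_eq]
    · have : ((q.num.natAbs : ℕ) : ℚ) = (q.num : ℚ) := by
        rw [← Int.cast_natCast, Int.natCast_natAbs, abs_of_nonneg (not_lt.1 h)]
      rw [this]; push_cast; rfl

@[fun_prop] theorem PT.qdiv {f g : α → ℚ} (hf : PT f) (hg : PT g) : PT fun x => f x / g x :=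
  PT.of_eq (f := fun x => f x * (g x)⁻¹) (by fun_prop) fun x => by rw [div_eq_mul_inv]

@[fun_prop] theorem PT.qlt {f g : α → ℚ} [∀ x, Decidable (f x < g x)] (hf : PT f) (hg : PT g) :
    PT fun x => decide (f x < g x) :=
  PT.of_eq (f := fun x => decide ((0 : ℤ) < (g x - f x).num)) (by fun_prop) fun x => by
    rw [decide_eq_decide, Rat.num_pos, sub_pos]

@[fun_prop] theorem PT.qle {f g : α → ℚ} [∀ x, Decidable (f x ≤ g x)] (hf : PT f) (hg : PT g) :
    PT fun x => decide (f x ≤ g x) :=
  PT.of_eq (f := fun x => !decide (g x < f x)) (by fun_prop) fun x => by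
    by_cases h : f x ≤ g x
    · simp [h]
    · simp [h, not_le.1 h]

@[fun_prop] theorem PT.natCastRat {f : α → ℕ} (hf : PT f) : PT fun x => (f x : ℚ) :=
  PT.of_eq (f := fun x => Poly.qmk (Poly.bint ⟨f x⟩) ⟨1⟩) (by fun_prop) fun x => by
    simp [Poly.qmk, Poly.bint, Rat.mkRat_eq_div]

/-- The height of a rational number. -/
def ht (q : ℚ) : ℕ := max q.num.natAbs q.den

theorem ht_pos (q : ℚ) : 1 ≤ ht q := le_trans q.pos (le_max_right _ _)

theorem sz_int (n : ℤ) : sz n = 2 * sz (Bin.mk n.toNat) + 1 + sz (Bin.mk (-n).toNat) := by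
  rw [← sz_pair]; rfl

theorem sz_rat (q : ℚ) : sz q = 2 * sz q.num + 1 + sz (Bin.mk q.den) := by
  rw [← sz_pair]; rfl

theorem ht_lt (q : ℚ) : ht q < 2 ^ sz q := by
  have h1 := (Bin.mk q.num.toNat).lt_two_pow
  have h2 := (Bin.mk (-q.num).toNat).lt_two_pow
  have h3 := (Bin.mk q.den).lt_two_pow
  have e := sz_rat q
  rw [sz_int] at e
  have a1 : 2 ^ sz (Bin.mk q.num.toNat) ≤ 2 ^ sz q := Nat.pow_le_pow_right (by omega) (by omega)
  have a2 : 2 ^ sz (Bin.mk (-q.num).toNat) ≤ 2 ^ sz q :=
    Nat.pow_le_pow_right (by omega) (by omega)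
  have a3 : 2 ^ sz (Bin.mk q.den) ≤ 2 ^ sz q := Nat.pow_le_pow_right (by omega) (by omega)
  simp only at h1 h2 h3
  unfold ht
  omega

theorem sz_le_of_ht {q : ℚ} {k : ℕ} (h : ht q ≤ 2 ^ k) : sz q ≤ 7 * k + 10 := by
  unfold ht at h
  have hk : 2 ^ k < 2 ^ (k + 1) := Nat.pow_lt_pow_right (by omega) (by omega)
  have h1 : sz (Bin.mk q.num.toNat) ≤ k + 1 := Bin.sz_le (by omega)
  have h2 : sz (Bin.mk (-q.num).toNat) ≤ k + 1 := Bin.sz_le (by omega)
  have h3 : sz (Bin.mk q.den) ≤ k + 1 := Bin.sz_le (by omega)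
  rw [sz_rat, sz_int]
  omega

theorem ht_le_of_mul_eq {q : ℚ} {a b : ℤ} {H : ℕ} (hb : b ≠ 0) (h : q * b = a)
    (h1 : a.natAbs ≤ H) (h2 : b.natAbs ≤ H) : ht q ≤ H := by
  have e : q = Rat.divInt a b := by
    rw [Rat.divInt_eq_div, ← h]; field_simp
  have hd : (q.den : ℤ) ∣ b := by rw [e]; exact Rat.den_dvd a b
  have hn : q.num ∣ a := by rw [e]; exact Rat.num_dvd a hb
  refine max_le ?_ ?_
  · by_cases ha : a = 0
    · have : q = 0 := by rw [e, ha]; simp
      simp [this]
    · exact (Nat.le_of_dvd (Int.natAbs_pos.2 ha) (Int.natAbs_dvd_natAbs.2 hn)).trans h1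
  · have := Nat.le_of_dvd (Int.natAbs_pos.2 hb) (Int.natAbs_dvd_natAbs.2 hd)
    simp only [Int.natAbs_natCast] at this
    exact this.trans h2

theorem ht_add (a b : ℚ) : ht (a + b) ≤ 2 * (ht a * ht b) := by
  have a1 : a.num.natAbs ≤ ht a := le_max_left _ _
  have a2 : a.den ≤ ht a := le_max_right _ _
  have b1 : b.num.natAbs ≤ ht b := le_max_left _ _
  have b2 : b.den ≤ ht b := le_max_right _ _
  refine ht_le_of_mul_eq (a := a.num * b.den + b.num * a.den) (b := a.den * b.den)
    (by have := a.den_nz; have := b.den_nz; positivity) ?_ ?_ ?_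
  · push_cast
    rw [← Rat.mul_den_eq_num a, ← Rat.mul_den_eq_num b]; ring
  · refine (Int.natAbs_add_le _ _).trans ?_
    rw [Int.natAbs_mul, Int.natAbs_mul, Int.natAbs_natCast, Int.natAbs_natCast]
    have := Nat.mul_le_mul a1 b2
    have := Nat.mul_le_mul b1 a2
    rw [Nat.mul_comm (ht b)] at this
    omega
  · rw [Int.natAbs_mul, Int.natAbs_natCast, Int.natAbs_natCast]
    have := Nat.mul_le_mul a2 b2
    omega

theorem ht_mul (a b : ℚ) : ht (a * b) ≤ ht a * ht b := by
  have a1 : a.num.natAbs ≤ ht a := le_max_left _ _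
  have a2 : a.den ≤ ht a := le_max_right _ _
  have b1 : b.num.natAbs ≤ ht b := le_max_left _ _
  have b2 : b.den ≤ ht b := le_max_right _ _
  refine ht_le_of_mul_eq (a := a.num * b.num) (b := a.den * b.den)
    (by have := a.den_nz; have := b.den_nz; positivity) ?_ ?_ ?_
  · push_cast
    rw [← Rat.mul_den_eq_num a, ← Rat.mul_den_eq_num b]; ring
  · rw [Int.natAbs_mul]; exact Nat.mul_le_mul a1 b1
  · rw [Int.natAbs_mul, Int.natAbs_natCast, Int.natAbs_natCast]; exact Nat.mul_le_mul a2 b2

theorem ht_sum (l : List ℚ) : ht l.sum ≤ 2 ^ sz l := by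
  induction l with
  | nil => simp [ht]
  | cons a l ih =>
    rw [List.sum_cons, sz_cons]
    refine (ht_add _ _).trans ?_
    have h1 := (ht_lt a).le
    have h2 := Nat.mul_le_mul h1 ih
    rw [← pow_add] at h2
    have h3 : 2 ^ (sz a + sz l + 1) ≤ 2 ^ (2 * sz a + 1 + sz l) :=
      Nat.pow_le_pow_right (by omega) (by omega)
    rw [pow_succ] at h3
    omega

@[fun_prop] theorem PT.qsum {l : α → List ℚ} (hl : PT l) : PT fun x => (l x).sum := by
  obtain ⟨s, hs, hs'⟩ := hl.size
  refine (PT.foldl_inv (f := fun _ (a b : ℚ) => a + b) (init := fun _ => 0) (by fun_prop)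
    (by fun_prop) hl (fun n => 7 * s n + 10) (by fun_prop) fun a i => ?_).of_eq fun a => ?_
  · rw [← List.sum_eq_foldl]
    have h1 := sz_le_of_ht (ht_sum ((l a).take i))
    have h2 := (PT.sz_take_le (l a) i).trans (hs' a)
    omega
  · rw [← List.sum_eq_foldl]

/-- Powers of two, from a unary exponent. -/
@[fun_prop] theorem PT.twoPow {f : α → ℕ} (hf : PT f) : PT fun x => (2 : ℚ) ^ f x := by
  have h : PT fun x => Poly.qmk (Poly.bint (Bin.ofBits (List.replicate (f x) false ++ [true])))
      ⟨1⟩ := by fun_prop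
  refine h.of_eq fun x => ?_
  have e : ∀ n, bv (List.replicate n false ++ [true]) = 2 ^ n := by
    intro n
    induction n with
    | zero => rfl
    | succ n ih => rw [List.replicate_succ, List.cons_append, bv, ih, pow_succ]; simp; ring
  simp [Poly.qmk, Poly.bint, Bin.ofBits, e, Rat.mkRat_eq_div]

end Pool.Agent.Lib.Poly
end

-- merged part: Pool.Agent.Lib.Poly.Gauss
section
/-!
Gaussian elimination over the rationals in `PT`.
-/

namespace Pool.Agent.Lib.Poly

open Finset

/-- Entry of a rational vector given as a list. -/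
def ent (l : List ℚ) (c : ℕ) : ℚ := l.getD c 0

/-- Pivot column, reduced row, original row. -/
abbrev Piv := ℕ × List ℚ × List ℚ

/-- Entry `c` of the residual of `v` modulo the rows of `st`. -/
def resC (st : List Piv) (v : List ℚ) (c : ℕ) : ℚ :=
  ent v c - (st.map fun e => ent v e.1 * ent e.2.1 c).sum

def mkVec (D : ℕ) (f : ℕ → ℚ) : List ℚ := (List.range D).map f

theorem ent_mkVec {D : ℕ} (f : ℕ → ℚ) {c : ℕ} (h : c < D) : ent (mkVec D f) c = f c := by
  simp [ent, mkVec, List.getD_eq_getElem?_getD, h]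

def addPiv (D : ℕ) (st : List Piv) (v : List ℚ) (j : ℕ) : List Piv :=
  (j, mkVec D (fun c => resC st v c / resC st v j), v) ::
    st.map fun e => (e.1, mkVec D (fun c => ent e.2.1 c - ent e.2.1 j * (resC st v c / resC st v j)),
      e.2.2)

def rrefStep (D : ℕ) (st : List Piv) (v : List ℚ) : List Piv :=
  if ((List.range D).filter fun c => decide (resC st v c ≠ 0)).isEmpty then st
  else addPiv D st v (((List.range D).filter fun c => decide (resC st v c ≠ 0)).headD 0)

/-- Reduced row echelon form of the rows `Z`, read on the first `D` columns. -/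
def rref (D : ℕ) (Z : List (List ℚ)) : List Piv := Z.foldl (rrefStep D) []

/-- The pairing of a rational row with a real vector. -/
def dot (D : ℕ) (v : List ℚ) (y : Fin D → ℝ) : ℝ := ∑ c : Fin D, (ent v c : ℝ) * y c

structure RInv (D : ℕ) (Z : List (List ℚ)) (st : List Piv) : Prop where
  lt : ∀ e ∈ st, e.1 < D
  nodup : (st.map fun e => e.1).Nodup
  delta : ∀ e ∈ st, ∀ e' ∈ st, ent e.2.1 e'.1 = if e.1 = e'.1 then 1 else 0
  zero : ∀ z ∈ Z, ∀ c < D, resC st z c = 0
  orig : ∀ e ∈ st, e.2.2 ∈ Z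
  dual : ∀ y : Fin D → ℝ, (∀ e ∈ st, dot D e.2.2 y = 0) → ∀ e ∈ st, dot D e.2.1 y = 0
  len : ∀ e ∈ st, e.2.1.length = D
  card : st.length ≤ Z.length

theorem sum_delta (st : List Piv) (hn : (st.map fun e => e.1).Nodup) (f : ℕ → ℚ) (j : ℕ)
    (hj : ∃ e ∈ st, e.1 = j) :
    (st.map fun e => f e.1 * if e.1 = j then 1 else 0).sum = f j := by
  induction st with
  | nil => simp at hj
  | cons e st ih =>
    rw [List.map_cons, List.nodup_cons] at hn
    rw [List.map_cons, List.sum_cons]
    by_cases h : e.1 = j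
    · rw [List.sum_eq_zero]
      · simp [h]
      · intro x hx
        obtain ⟨e', he', rfl⟩ := List.mem_map.1 hx
        rw [if_neg, mul_zero]
        intro h'
        exact hn.1 (List.mem_map.2 ⟨e', he', h'.trans h.symm⟩)
    · rw [ih hn.2, if_neg h]
      · simp
      · obtain ⟨e', he', h'⟩ := hj
        rcases List.mem_cons.1 he' with rfl | he'
        · exact absurd h' h
        · exact ⟨e', he', h'⟩

theorem RInv.res_piv {D Z st} (h : RInv D Z st) (v : List ℚ) {e : Piv} (he : e ∈ st) :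
    resC st v e.1 = 0 := by
  unfold resC
  rw [List.map_congr_left (g := fun e' => ent v e'.1 * if e'.1 = e.1 then 1 else 0)
    (fun e' he' => by rw [h.delta e' he' e he]), sum_delta st h.nodup _ _ ⟨e, he, rfl⟩, sub_self]

theorem dot_resC (D : ℕ) (st : List Piv) (v : List ℚ) (y : Fin D → ℝ) :
    ∑ c : Fin D, (resC st v c : ℝ) * y c =
      dot D v y - (st.map fun e => (ent v e.1 : ℝ) * dot D e.2.1 y).sum := by
  unfold resC dot
  induction st with
  | nil => simp
  | cons e st ih =>
    simp only [List.map_cons, List.sum_cons] at ih ⊢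
    rw [← sub_sub, sub_right_comm, ← ih, Finset.mul_sum, ← Finset.sum_sub_distrib]
    refine Finset.sum_congr rfl fun c _ => ?_
    push_cast; ring

theorem sum_map_sub_mul (st : List Piv) (a b c : Piv → ℚ) (t : ℚ) :
    (st.map fun e => a e * (b e - c e * t)).sum =
      (st.map fun e => a e * b e).sum - (st.map fun e => a e * c e).sum * t := by
  induction st with
  | nil => simp
  | cons e st ih => simp only [List.map_cons, List.sum_cons, ih]; ring

theorem resC_addPiv {D : ℕ} {st : List Piv} (v z : List ℚ) {j c : ℕ} (hc : c < D) :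
    resC (addPiv D st v j) z c = resC st z c - resC st z j * (resC st v c / resC st v j) := by
  unfold addPiv
  generalize hρ : resC st v = ρ
  unfold resC
  simp only [List.map_cons, List.sum_cons, List.map_map, Function.comp_def, ent_mkVec _ hc]
  rw [sum_map_sub_mul]; ring

theorem RInv.step {D Z st} (h : RInv D Z st) (v : List ℚ) :
    RInv D (Z ++ [v]) (rrefStep D st v) := by
  unfold rrefStep
  split_ifs with h0
  · refine ⟨h.lt, h.nodup, h.delta, fun z hz c hc => ?_, fun e he => by simp [h.orig e he],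
      h.dual, h.len, by have := h.card; simp; omega⟩
    rcases List.mem_append.1 hz with hz | hz
    · exact h.zero z hz c hc
    · rw [List.mem_singleton.1 hz]
      rw [List.isEmpty_iff, List.filter_eq_nil_iff] at h0
      simpa using h0 c (List.mem_range.2 hc)
  · generalize hj : ((List.range D).filter fun c => decide (resC st v c ≠ 0)).headD 0 = j
    have hmem : j ∈ (List.range D).filter fun c => decide (resC st v c ≠ 0) := by
      generalize ((List.range D).filter fun c => decide (resC st v c ≠ 0)) = L at h0 hj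
      cases L with
      | nil => simp at h0
      | cons a L => simp at hj; simp [hj]
    simp only [List.mem_filter, List.mem_range, decide_eq_true_eq] at hmem
    obtain ⟨hjD, hρ⟩ := hmem
    have hne : ∀ e ∈ st, e.1 ≠ j := fun e he e' => hρ (e' ▸ h.res_piv v he)
    have mem : ∀ e ∈ addPiv D st v j, e = (j, mkVec D (fun c => resC st v c / resC st v j), v) ∨
        ∃ e0 ∈ st, e = (e0.1, mkVec D (fun c => ent e0.2.1 c - ent e0.2.1 j *
          (resC st v c / resC st v j)), e0.2.2) := by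
      intro e he
      rcases List.mem_cons.1 he with rfl | he
      · exact Or.inl rfl
      · obtain ⟨e0, h1, rfl⟩ := List.mem_map.1 he
        exact Or.inr ⟨e0, h1, rfl⟩
    refine ⟨fun e he => ?_, ?_, fun e he e' he' => ?_, fun z hz c hc => ?_, fun e he => ?_,
      fun y hy e he => ?_, fun e he => ?_, ?_⟩
    · rcases mem e he with rfl | ⟨e0, h1, rfl⟩
      · exact hjD
      · exact h.lt e0 h1
    · simp only [addPiv, List.map_cons, List.map_map, Function.comp_def, List.nodup_cons]
      refine ⟨fun hh => ?_, h.nodup⟩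
      obtain ⟨e, he, e'⟩ := List.mem_map.1 hh
      exact hne e he e'
    · rcases mem e he with rfl | ⟨e0, h1, rfl⟩ <;> rcases mem e' he' with rfl | ⟨e1, h2, rfl⟩
      · simp [ent_mkVec _ hjD, hρ]
      · simp [ent_mkVec _ (h.lt e1 h2), h.res_piv v h2, (hne e1 h2).symm]
      · simp [ent_mkVec _ hjD, hρ, hne e0 h1]
      · simp [ent_mkVec _ (h.lt e1 h2), h.res_piv v h2, h.delta e0 h1 e1 h2]
    · rw [resC_addPiv v z hc]
      rcases List.mem_append.1 hz with hz | hz
      · rw [h.zero z hz c hc, h.zero z hz j hjD]; simp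
      · rw [List.mem_singleton.1 hz]; field_simp; ring
    · rcases mem e he with rfl | ⟨e0, h1, rfl⟩
      · simp
      · simp [h.orig e0 h1]
    · have h1 : ∀ e ∈ st, dot D e.2.1 y = 0 := h.dual y fun e he =>
        hy (e.1, mkVec D (fun c => ent e.2.1 c - ent e.2.1 j * (resC st v c / resC st v j)), e.2.2)
          (List.mem_cons_of_mem _ (List.mem_map.2 ⟨e, he, rfl⟩))
      have h2 : dot D v y = 0 := hy _ List.mem_cons_self
      have h3 : ∑ c : Fin D, (resC st v c : ℝ) * y c = 0 := by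
        rw [dot_resC, h2, List.sum_eq_zero, sub_self]
        intro x hx
        obtain ⟨e, he, rfl⟩ := List.mem_map.1 hx
        rw [h1 e he, mul_zero]
      have h4 : ∑ c : Fin D, ((resC st v c / resC st v j : ℚ) : ℝ) * y c = 0 := by
        have : ∀ c : Fin D, ((resC st v c / resC st v j : ℚ) : ℝ) * y c =
            (resC st v j : ℝ)⁻¹ * ((resC st v c : ℝ) * y c) := fun c => by push_cast; ring
        simp only [this, ← Finset.mul_sum, h3, mul_zero]
      rcases mem e he with rfl | ⟨e0, h5, rfl⟩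
      · simp only [dot, ent_mkVec _ (Fin.is_lt _)]
        exact h4
      · simp only [dot, ent_mkVec _ (Fin.is_lt _)]
        have : ∀ c : Fin D, ((ent e0.2.1 c - ent e0.2.1 j * (resC st v c / resC st v j) : ℚ) : ℝ) *
            y c = (ent e0.2.1 c : ℝ) * y c - (ent e0.2.1 j : ℝ) *
              (((resC st v c / resC st v j : ℚ) : ℝ) * y c) := fun c => by push_cast; ring
        simp only [this, Finset.sum_sub_distrib, ← Finset.mul_sum, h4, mul_zero, sub_zero]
        exact h1 e0 h5
    · rcases mem e he with rfl | ⟨e0, h1, rfl⟩ <;> simp [mkVec]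
    · have := h.card
      simp [addPiv]; omega

theorem rinv_rref (D : ℕ) (Z : List (List ℚ)) : RInv D Z (rref D Z) := by
  induction Z using List.reverseRecOn with
  | nil => exact ⟨by simp [rref], by simp [rref], by simp [rref], by simp, by simp [rref],
      by simp [rref], by simp [rref], by simp [rref]⟩
  | append_singleton Z v ih =>
    rw [rref, List.foldl_append]
    exact ih.step v

/-- On vectors killed by `Z`, a row acts as its residual. -/
theorem dot_eq_res {D : ℕ} {Z : List (List ℚ)} {y : Fin D → ℝ} (hy : ∀ z ∈ Z, dot D z y = 0)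
    (v : List ℚ) : dot D v y = ∑ c : Fin D, (resC (rref D Z) v c : ℝ) * y c := by
  have h := rinv_rref D Z
  rw [dot_resC, List.sum_eq_zero, sub_zero]
  intro x hx
  obtain ⟨e, he, rfl⟩ := List.mem_map.1 hx
  rw [h.dual y (fun e he => hy _ (h.orig e he)) e he, mul_zero]

theorem res_eq_zero {D : ℕ} {Z : List (List ℚ)} {z : List ℚ} (hz : z ∈ Z) {c : ℕ} (hc : c < D) :
    resC (rref D Z) z c = 0 := (rinv_rref D Z).zero z hz c hc

theorem exists_probe_aux {D : ℕ} (st : List Piv) (hs : ∀ e ∈ st, e.1 < D) (a : Piv → ℚ) :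
    ∃ y : Fin D → ℝ, ∀ v, dot D v y = ((st.map fun e => ent v e.1 * a e).sum : ℚ) := by
  induction st with
  | nil => exact ⟨0, fun v => by simp [dot]⟩
  | cons e st ih =>
    obtain ⟨y, hy⟩ := ih fun e' he' => hs e' (List.mem_cons_of_mem _ he')
    refine ⟨y + Pi.single ⟨e.1, hs e List.mem_cons_self⟩ (a e : ℝ), fun v => ?_⟩
    have := hy v
    unfold dot at this ⊢
    simp only [Pi.add_apply, mul_add, Finset.sum_add_distrib, this, List.map_cons, List.sum_cons]
    rw [Finset.sum_eq_single ⟨e.1, hs e List.mem_cons_self⟩]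
    · simp [add_comm]
    · intro b _ hb; simp [Pi.single_eq_of_ne hb]
    · simp

/-- Each coordinate of the residual is the pairing with some vector. -/
theorem exists_probe (D : ℕ) (Z : List (List ℚ)) {c : ℕ} (hc : c < D) :
    ∃ y : Fin D → ℝ, ∀ v, dot D v y = resC (rref D Z) v c := by
  obtain ⟨y, hy⟩ := exists_probe_aux (rref D Z) (rinv_rref D Z).lt fun e => ent e.2.1 c
  refine ⟨Pi.single ⟨c, hc⟩ 1 - y, fun v => ?_⟩
  have := hy v
  unfold dot at this ⊢
  simp only [Pi.sub_apply, mul_sub, Finset.sum_sub_distrib, this, resC]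
  rw [Finset.sum_eq_single ⟨c, hc⟩]
  · simp
  · intro b _ hb; simp [Pi.single_eq_of_ne hb]
  · simp

theorem cramer_ht {n H : ℕ} (M : Matrix (Fin n) (Fin n) ℤ) (b : Fin n → ℤ) (x : Fin n → ℚ)
    (hM : ∀ i j, |M i j| ≤ H) (hb : ∀ i, |b i| ≤ H) (hdet : M.det ≠ 0)
    (hx : ∀ i, ∑ j, (M i j : ℚ) * x j = b i) (a : Fin n) : ht (x a) ≤ n.factorial * H ^ n := by
  have bound : ∀ N : Matrix (Fin n) (Fin n) ℤ, (∀ i j, |N i j| ≤ H) →
      N.det.natAbs ≤ n.factorial * H ^ n := by
    intro N hN
    have := Matrix.det_le (abv := AbsoluteValue.abs) (A := N) (x := (H : ℤ)) hN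
    simp only [Fintype.card_fin, AbsoluteValue.abs_apply, nsmul_eq_mul] at this
    rw [Int.abs_eq_natAbs] at this
    exact_mod_cast this
  refine ht_le_of_mul_eq (a := (M.updateCol a b).det) hdet ?_ (bound _ fun i j => ?_) (bound _ hM)
  · set Mq : Matrix (Fin n) (Fin n) ℚ := M.map (Int.castRingHom ℚ) with hMq
    have e1 : Mq.mulVec x = fun i => (b i : ℚ) := by
      funext i; rw [← hx i]; rfl
    have e2 : ((M.updateCol a b).det : ℚ) = Mq.cramer (fun i => (b i : ℚ)) a := by
      rw [Matrix.cramer_apply]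
      have := (Int.castRingHom ℚ).map_det (M.updateCol a b)
      simp only [eq_intCast] at this
      rw [this]
      congr 1
      ext i j
      by_cases hj : j = a <;> simp [hMq, hj]
    have e3 : (M.det : ℚ) = Mq.det := by
      exact (Int.castRingHom ℚ).map_det M
    rw [e2, e3, ← e1, Matrix.cramer_eq_adjugate_mulVec, Matrix.mulVec_mulVec,
      Matrix.adjugate_mul]
    simp [Matrix.smul_mulVec, mul_comm]
  · by_cases hj : j = a <;> simp [hj, hM, hb]

theorem exists_common_den (l : List ℚ) :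
    ∃ Q : ℕ, Q ≠ 0 ∧ Q ≤ 2 ^ sz l ∧ ∀ q ∈ l, q.den ∣ Q := by
  induction l with
  | nil => exact ⟨1, by simp, by simp, by simp⟩
  | cons a l ih =>
    obtain ⟨Q, h1, h2, h3⟩ := ih
    refine ⟨a.den * Q, mul_ne_zero a.den_nz h1, ?_, fun q hq => ?_⟩
    · have h4 : a.den ≤ 2 ^ sz a := (le_max_right _ _).trans (ht_lt a).le
      refine (Nat.mul_le_mul h4 h2).trans ?_
      rw [← pow_add, sz_cons]
      exact Nat.pow_le_pow_right (by omega) (by omega)
    · rcases List.mem_cons.1 hq with rfl | hq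
      · exact Dvd.intro _ rfl
      · exact (h3 q hq).mul_left _

theorem sz_flatten_le {β : Type} [Enc β] (Z : List (List β)) : sz Z.flatten ≤ sz Z := by
  induction Z with
  | nil => simp
  | cons a Z ih => simp; omega

theorem exists_int_scale (Z : List (List ℚ)) : ∃ Q : ℕ, Q ≠ 0 ∧ ∀ z ∈ Z, ∀ c,
    ∃ k : ℤ, (k : ℚ) = Q * ent z c ∧ |k| ≤ ((2 ^ (2 * sz Z) : ℕ) : ℤ) := by
  obtain ⟨Q, h1, h2, h3⟩ := exists_common_den Z.flatten
  refine ⟨Q, h1, fun z hz c => ?_⟩
  by_cases hc : c < z.length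
  · have hq : ent z c ∈ Z.flatten := by
      refine List.mem_flatten.2 ⟨z, hz, ?_⟩
      rw [ent, List.getD_eq_getElem _ _ hc]; exact List.getElem_mem _
    generalize ent z c = q at hq
    obtain ⟨w, hw⟩ := h3 q hq
    refine ⟨q.num * w, ?_, ?_⟩
    · rw [hw]; push_cast; rw [← Rat.mul_den_eq_num q]; ring
    · have a1 : q.num.natAbs ≤ 2 ^ sz Z.flatten :=
        (le_max_left _ _).trans ((ht_lt q).le.trans
          (Nat.pow_le_pow_right (by omega) (sz_le_of_mem hq)))
      have a2 : w ≤ 2 ^ sz Z.flatten := (Nat.le_of_dvd (Nat.pos_of_ne_zero h1)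
        (Dvd.intro_left _ hw.symm)).trans h2
      have a3 := Nat.mul_le_mul a1 a2
      rw [← pow_add] at a3
      have a4 := sz_flatten_le Z
      have a5 := a3.trans (Nat.pow_le_pow_right (by omega)
        (show sz Z.flatten + sz Z.flatten ≤ 2 * sz Z by omega))
      rw [Int.abs_eq_natAbs, Int.natAbs_mul, Int.natAbs_natCast]
      exact_mod_cast a5
  · exact ⟨0, by rw [ent, List.getD_eq_default _ _ (not_lt.1 hc)]; simp, by simp⟩

theorem RInv.ht_le {D Z st} (h : RInv D Z st) {e : Piv} (he : e ∈ st) {c : ℕ} (hc : c < D) :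
    ht (ent e.2.1 c) ≤ 2 ^ (3 * (sz Z * sz Z)) := by
  obtain ⟨Q, hQ, hk⟩ := exists_int_scale Z
  choose k hk1 hk2 using hk
  obtain ⟨a, ha, rfl⟩ := List.getElem_of_mem he
  have om : ∀ i : Fin st.length, st[i.1].2.2 ∈ Z := fun i => h.orig _ (List.getElem_mem _)
  let M : Matrix (Fin st.length) (Fin st.length) ℤ := fun i j => k _ (om i) st[j.1].1
  have hdet : M.det ≠ 0 := by
    intro h0
    have h1 : (M.map (Int.castRingHom ℚ)).det = 0 := by
      have := (Int.castRingHom ℚ).map_det M
      rw [h0] at this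
      simpa using this.symm
    obtain ⟨x, hx0, hx⟩ := Matrix.exists_mulVec_eq_zero_iff.2 h1
    have inj : ∀ i j : Fin st.length, st[i.1].1 = st[j.1].1 → i = j := by
      intro i j hij
      have := (List.nodup_iff_injective_getElem.1 h.nodup)
        (a₁ := ⟨i.1, by simp⟩) (a₂ := ⟨j.1, by simp⟩) (by simpa using hij)
      exact Fin.ext (by simpa using this)
    let y : Fin D → ℝ := ∑ j : Fin st.length,
      Pi.single ⟨st[j.1].1, h.lt _ (List.getElem_mem _)⟩ (x j : ℝ)
    have hy : ∀ v, dot D v y = ∑ j : Fin st.length, (ent v st[j.1].1 : ℝ) * x j := by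
      intro v
      simp only [dot, y, Finset.sum_apply, Finset.mul_sum]
      rw [Finset.sum_comm]
      refine Finset.sum_congr rfl fun j _ => ?_
      rw [Finset.sum_eq_single ⟨st[j.1].1, h.lt _ (List.getElem_mem _)⟩]
      · simp
      · intro b _ hb; simp [Pi.single_eq_of_ne hb]
      · simp
    have h2 := h.dual y (by
      intro e he
      obtain ⟨i, hi, rfl⟩ := List.getElem_of_mem he
      have h3 := congrFun hx ⟨i, hi⟩
      simp only [Matrix.mulVec, dotProduct, Matrix.map_apply, M, eq_intCast, hk1,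
        Pi.zero_apply, mul_assoc, ← Finset.mul_sum] at h3
      rw [hy]
      have h4 := (mul_eq_zero.1 h3).resolve_left (by exact_mod_cast hQ)
      exact_mod_cast h4)
    refine hx0 (funext fun i => ?_)
    have h5 := h2 _ (List.getElem_mem i.2)
    rw [hy, Finset.sum_eq_single i] at h5
    · rw [h.delta _ (List.getElem_mem _) _ (List.getElem_mem _)] at h5
      simpa using h5
    · intro j _ hj
      rw [h.delta _ (List.getElem_mem _) _ (List.getElem_mem _), if_neg fun e => hj (inj _ _ e).symm]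
      simp
    · simp
  have key := cramer_ht M (fun i => k _ (om i) c) (fun j => ent st[j.1].2.1 c)
    (fun i j => hk2 _ _ _) (fun i => hk2 _ _ _) hdet (fun i => by
      have h1 := h.zero _ (om i) c hc
      unfold resC at h1
      rw [← Fin.sum_univ_fun_getElem] at h1
      simp only [M, hk1, mul_assoc, ← Finset.mul_sum]
      rw [← sub_eq_zero.1 h1]) ⟨a, ha⟩
  refine key.trans ?_
  have hn : st.length ≤ sz Z := h.card.trans (length_le_sz Z)
  have f1 : st.length.factorial ≤ 2 ^ (sz Z * sz Z) := by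
    refine (Nat.factorial_le_pow _).trans ?_
    refine (Nat.pow_le_pow_left Nat.lt_two_pow_self.le _).trans ?_
    rw [← pow_mul]
    exact Nat.pow_le_pow_right (by omega) (Nat.mul_le_mul hn hn)
  have f2 : (2 ^ (2 * sz Z)) ^ st.length ≤ 2 ^ (2 * (sz Z * sz Z)) := by
    rw [← pow_mul]
    exact Nat.pow_le_pow_right (by omega) (by nlinarith)
  refine (Nat.mul_le_mul f1 f2).trans ?_
  rw [← pow_add]
  exact Nat.pow_le_pow_right (by omega) (by omega)

theorem sz_list_le {β : Type} [Enc β] (l : List β) (B : ℕ) (h : ∀ x ∈ l, sz x ≤ B) :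
    sz l ≤ l.length * (2 * B + 1) := by
  induction l with
  | nil => simp
  | cons a l ih =>
    have h1 := h a List.mem_cons_self
    have h2 := ih fun x hx => h x (List.mem_cons_of_mem _ hx)
    rw [sz_cons, List.length_cons, Nat.add_mul l.length]; omega

theorem sz_rref_le (D : ℕ) (Z : List (List ℚ)) :
    sz (rref D Z) ≤ sz Z * (2 * (2 * D + 1 + (2 * (D * (2 * (7 * (3 * (sz Z * sz Z)) + 10) + 1))
      + 1 + sz Z)) + 1) := by
  have h := rinv_rref D Z
  refine (sz_list_le _ _ fun e he => ?_).trans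
    (Nat.mul_le_mul_right _ (h.card.trans (length_le_sz Z)))
  have h1 := h.lt e he
  have h2 := sz_le_of_mem (h.orig e he)
  have h3 : sz e.2.1 ≤ D * (2 * (7 * (3 * (sz Z * sz Z)) + 10) + 1) := by
    rw [← h.len e he]
    refine sz_list_le _ _ fun q hq => ?_
    obtain ⟨c, hc, rfl⟩ := List.getElem_of_mem hq
    have := h.ht_le he (c := c) (by rw [← h.len e he]; exact hc)
    rw [ent, List.getD_eq_getElem _ _ hc] at this
    exact sz_le_of_ht this
  obtain ⟨j, r, v⟩ := e
  simp only [sz_pair, sz_nat] at h1 h2 h3 ⊢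
  omega

variable {α : Type} [Enc α]

@[fun_prop] theorem PT.ent {l : α → List ℚ} {c : α → ℕ} (hl : PT l) (hc : PT c) :
    PT fun x => ent (l x) (c x) := by
  unfold Poly.ent; fun_prop

@[fun_prop] theorem PT.resC {st : α → List Piv} {v : α → List ℚ} {c : α → ℕ} (hs : PT st)
    (hv : PT v) (hc : PT c) : PT fun x => resC (st x) (v x) (c x) := by
  unfold Poly.resC; fun_prop

@[fun_prop] theorem PT.mkVec {D : α → ℕ} {f : α → ℕ → ℚ} (hD : PT D)
    (hf : PT fun p : α × ℕ => f p.1 p.2) : PT fun x => mkVec (D x) (f x) := by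
  unfold Poly.mkVec; fun_prop

theorem PT.rrefStep : PT fun p : ℕ × List Piv × List ℚ => rrefStep p.1 p.2.1 p.2.2 := by
  unfold Poly.rrefStep addPiv; fun_prop

@[fun_prop] theorem PT.rref {D : α → ℕ} {Z : α → List (List ℚ)} (hD : PT D) (hZ : PT Z) :
    PT fun x => rref (D x) (Z x) := by
  have h : PT fun p : ℕ × List (List ℚ) => Poly.rref p.1 p.2 := by
    refine PT.foldl_inv (f := fun p : ℕ × List (List ℚ) => Poly.rrefStep p.1)
      (init := fun _ => []) (l := fun p => p.2)
      (PT.rrefStep.comp (g := fun p : (ℕ × List (List ℚ)) × List Piv × List ℚ =>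
        (p.1.1, p.2.1, p.2.2)) (by fun_prop)) (by fun_prop) (by fun_prop)
      (fun n => n * (2 * (2 * n + 1 + (2 * (n * (2 * (7 * (3 * (n * n)) + 10) + 1)) + 1 + n)) + 1))
      (by fun_prop) fun a i => ?_
    refine (sz_rref_le a.1 (a.2.take i)).trans ?_
    have h1 : sz (a.2.take i) ≤ sz a := (PT.sz_take_le _ _).trans (sz_snd_le a)
    have h2 : a.1 ≤ sz a := by have := sz_fst_le a; rwa [sz_nat] at this
    gcongr
  exact h.comp (PT.mk hD hZ)

end Pool.Agent.Lib.Poly
end
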